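import Pool.Agent.Helper25.FB.Spec

/-!
# FB, part UNI: unitary change of coordinates
-/

set_option autoImplicit false

namespace Pool.Agent.Helper19.FB

open Pool.Agent.Helper25.FB Pool.Agent.Helper25.FB.Inj MvPolynomial

/-- the linear forms -/
noncomputable def ell (a b : ℂ) : Fin 2 → Pol :=
  ![C ((starRingEnd ℂ) b) * X 0 + C a * X 1, C (-(starRingEnd ℂ) a) * X 0 + C b * X 1]

/-- the substituted polynomial -/
noncomputable def sbt (a b : ℂ) (P : Pol) : Pol := aeval (ell a b) P

/-- the unitary map `U` -/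
noncomputable def Um (a b : ℂ) (z : Fin 2 → ℂ) : Fin 2 → ℂ :=
  ![(starRingEnd ℂ) b * z 0 + a * z 1, -(starRingEnd ℂ) a * z 0 + b * z 1]

/-- the transpose of `U` -/
noncomputable def Ut (a b : ℂ) (z : Fin 2 → ℂ) : Fin 2 → ℂ :=
  ![(starRingEnd ℂ) b * z 0 - (starRingEnd ℂ) a * z 1, a * z 0 + b * z 1]

/-- the conjugate of `U` -/
noncomputable def Uc (a b : ℂ) (z : Fin 2 → ℂ) : Fin 2 → ℂ :=
  ![b * z 0 + (starRingEnd ℂ) a * z 1, -a * z 0 + (starRingEnd ℂ) b * z 1]

theorem eval_sbt (a b : ℂ) (P : Pol) (z : Fin 2 → ℂ) :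
    eval z (sbt a b P) = eval (Um a b z) P := by
  unfold sbt
  induction P using MvPolynomial.induction_on with
  | C c => simp
  | add p q hp hq => rw [map_add, map_add, map_add, hp, hq]
  | mul_X p i hp =>
    rw [map_mul, map_mul, map_mul, hp, aeval_X, eval_X]
    congr 1
    fin_cases i <;> simp [ell, Um]

theorem hom_sbt (a b : ℂ) (P : Pol) (n : ℕ) (h : P.IsHomogeneous n) :
    (sbt a b P).IsHomogeneous n := by
  have h1 : ∀ i, (ell a b i).IsHomogeneous 1 := by
    intro i
    fin_cases i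
    · exact ((isHomogeneous_X ℂ 0).C_mul _).add ((isHomogeneous_X ℂ 1).C_mul _)
    · exact ((isHomogeneous_X ℂ 0).C_mul _).add ((isHomogeneous_X ℂ 1).C_mul _)
  have h2 := h.aeval (ell a b) h1
  rwa [one_mul] at h2

theorem sbt_zero (a b : ℂ) : sbt a b 0 = 0 := by
  unfold sbt
  rw [map_zero]

theorem hc_sbt (a b : ℂ) (P : Pol) (n : ℕ) :
    homogeneousComponent n (sbt a b P) = sbt a b (homogeneousComponent n P) := by
  conv_lhs => rw [← sum_homogeneousComponent P]
  have h1 : sbt a b (∑ i ∈ Finset.range (P.totalDegree + 1), homogeneousComponent i P) =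
      ∑ i ∈ Finset.range (P.totalDegree + 1), sbt a b (homogeneousComponent i P) := by
    unfold sbt
    rw [map_sum]
  rw [h1, map_sum]
  have h2 : ∀ i ∈ Finset.range (P.totalDegree + 1),
      homogeneousComponent n (sbt a b (homogeneousComponent i P)) =
      if i = n then sbt a b (homogeneousComponent i P) else 0 := by
    intro i _
    have h3 : sbt a b (homogeneousComponent i P) ∈ homogeneousSubmodule (Fin 2) ℂ i :=
      hom_sbt a b _ i (homogeneousComponent_isHomogeneous i P)
    rw [homogeneousComponent_of_mem h3]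
    by_cases h4 : i = n
    · rw [if_pos h4, if_pos h4.symm]
    · rw [if_neg h4, if_neg (fun h => h4 h.symm)]
  rw [Finset.sum_congr rfl h2, Finset.sum_ite_eq']
  split_ifs with h3
  · rfl
  · rw [homogeneousComponent_eq_zero, sbt_zero]
    simpa using h3

theorem td_sbt (a b : ℂ) (P : Pol) (h : eval ![a, b] (lead P) ≠ 0) :
    (sbt a b P).totalDegree = P.totalDegree := by
  apply le_antisymm
  · have h1 : sbt a b P =
        ∑ i ∈ Finset.range (P.totalDegree + 1), sbt a b (homogeneousComponent i P) := by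
      conv_lhs => rw [← sum_homogeneousComponent P]
      unfold sbt
      rw [map_sum]
    rw [h1]
    refine totalDegree_finsetSum_le fun i hi => ?_
    refine le_trans (hom_sbt a b _ i (homogeneousComponent_isHomogeneous i P)).totalDegree_le ?_
    simpa [Nat.lt_succ_iff] using hi
  · by_contra hlt
    push Not at hlt
    have h1 := homogeneousComponent_eq_zero _ _ hlt
    rw [hc_sbt] at h1
    apply h
    have h2 : ![a, b] = Um a b ![0, 1] := by
      ext i
      fin_cases i <;> simp [Um]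
    rw [h2, ← eval_sbt]
    unfold lead
    rw [h1, map_zero]

theorem lead_sbt (a b : ℂ) (P : Pol) (h : eval ![a, b] (lead P) ≠ 0) :
    lead (sbt a b P) = sbt a b (lead P) := by
  unfold lead
  rw [td_sbt a b P h, hc_sbt]

/-- chain rule -/
theorem pd_sbt (a b : ℂ) (P : Pol) :
    pderiv 0 (sbt a b P) = sbt a b (pderiv 0 P) * C ((starRingEnd ℂ) b) +
      sbt a b (pderiv 1 P) * C (-(starRingEnd ℂ) a) ∧
    pderiv 1 (sbt a b P) = sbt a b (pderiv 0 P) * C a + sbt a b (pderiv 1 P) * C b := by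
  induction P using MvPolynomial.induction_on with
  | C c => simp [sbt]
  | add p q hp hq =>
    have h1 : sbt a b (p + q) = sbt a b p + sbt a b q := by
      unfold sbt
      rw [map_add]
    have h2 : ∀ i, sbt a b (pderiv i (p + q)) = sbt a b (pderiv i p) + sbt a b (pderiv i q) := by
      intro i
      unfold sbt
      rw [map_add, map_add]
    constructor
    · rw [h2, h2, h1, map_add, hp.1, hq.1]
      ring
    · rw [h2, h2, h1, map_add, hp.2, hq.2]
      ring
  | mul_X p i hp =>
    have h1 : sbt a b (p * X i) = sbt a b p * ell a b i := by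
      unfold sbt
      rw [map_mul, aeval_X]
    have h2 : ∀ j, sbt a b (pderiv j (p * X i)) = sbt a b (pderiv j p) * ell a b i +
        sbt a b p * C (if i = j then 1 else 0) := by
      intro j
      rw [pderiv_mul, pderiv_X]
      unfold sbt
      rw [map_add, map_mul, map_mul, aeval_X]
      congr 2
      by_cases hij : i = j
      · subst hij
        simp
      · rw [if_neg hij, Pi.single_eq_of_ne hij]
        simp
    have h3 : pderiv 0 (ell a b i) = C (if i = 0 then (starRingEnd ℂ) b else -(starRingEnd ℂ) a) ∧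
        pderiv 1 (ell a b i) = C (if i = 0 then a else b) := by
      fin_cases i <;> simp [ell, pderiv_X, Derivation.leibniz]
    constructor
    · rw [h2, h2, h1, pderiv_mul, hp.1, h3.1]
      fin_cases i
      · simp
        ring
      · simp
        ring
    · rw [h2, h2, h1, pderiv_mul, hp.2, h3.2]
      fin_cases i
      · simp
        ring
      · simp
        ring

theorem hom_scale (p : Pol) (n : ℕ) (h : p.IsHomogeneous n) (c : ℂ) (v : Fin 2 → ℂ) :
    eval (fun i => c * v i) p = c ^ n * eval v p := by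
  rw [eval_eq', eval_eq', Finset.mul_sum]
  refine Finset.sum_congr rfl fun d hd => ?_
  have h1 : d 0 + d 1 = n := by
    have := h (mem_support_iff.1 hd)
    simpa [Finsupp.weight_apply, Finsupp.sum_fintype] using this
  simp only [Fin.prod_univ_two, mul_pow]
  rw [← h1, pow_add]
  ring

theorem exists_dir (P : Pol) (hP : Red P) :
    ∃ a b : ℂ, ‖a‖ ^ 2 + ‖b‖ ^ 2 = 1 ∧ eval ![a, b] (lead P) ≠ 0 := by
  have h1 : ∃ v : Fin 2 → ℂ, v ≠ 0 ∧ eval v (lead P) ≠ 0 := by
    by_contra hcon
    push Not at hcon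
    have h2 : lead P * X 0 = 0 := by
      apply MvPolynomial.funext
      intro x
      rw [map_mul, eval_X, map_zero]
      by_cases hx : x = 0
      · rw [hx]
        simp
      · rw [hcon x hx, zero_mul]
    have h3 : lead P = 0 := by
      rcases mul_eq_zero.1 h2 with h | h
      · exact h
      · exact absurd h (X_ne_zero 0)
    obtain ⟨i, hi⟩ := hP ![1, 0] (by
      intro h
      have := congrFun h 0
      simp at this) (by rw [h3, map_zero])
    apply hi
    rw [h3, map_zero, map_zero]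
  obtain ⟨v, hv0, hv⟩ := h1
  have hs : 0 < ‖v 0‖ ^ 2 + ‖v 1‖ ^ 2 := by
    by_contra hcon
    have h4 : ‖v 0‖ ^ 2 = 0 := by nlinarith [sq_nonneg ‖v 0‖, sq_nonneg ‖v 1‖]
    have h5 : ‖v 1‖ ^ 2 = 0 := by nlinarith [sq_nonneg ‖v 0‖, sq_nonneg ‖v 1‖]
    apply hv0
    ext i
    fin_cases i
    · simpa using h4
    · simpa using h5
  set s : ℝ := Real.sqrt (‖v 0‖ ^ 2 + ‖v 1‖ ^ 2) with hsdef
  have hs0 : 0 < s := Real.sqrt_pos.2 hs
  have hs2 : s ^ 2 = ‖v 0‖ ^ 2 + ‖v 1‖ ^ 2 := Real.sq_sqrt hs.le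
  refine ⟨v 0 / s, v 1 / s, ?_, ?_⟩
  · rw [norm_div, norm_div, Complex.norm_real, Real.norm_of_nonneg hs0.le, div_pow, div_pow, ← add_div,
      ← hs2]
    field_simp
  · intro h
    apply hv
    have hhom : (lead P).IsHomogeneous P.totalDegree := homogeneousComponent_isHomogeneous _ _
    have h6 : eval v (lead P) = (s : ℂ) ^ P.totalDegree * eval ![v 0 / s, v 1 / s] (lead P) := by
      rw [← hom_scale _ _ hhom]
      have hsc : (s : ℂ) ≠ 0 := by exact_mod_cast hs0.ne'
      have h7 : v = fun i => (s : ℂ) * (![v 0 / s, v 1 / s] : Fin 2 → ℂ) i := by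
        ext i
        fin_cases i
        · simp only [Fin.zero_eta, Matrix.cons_val_zero]
          rw [mul_div_cancel₀ _ hsc]
        · simp only [Fin.mk_one, Matrix.cons_val_one, Matrix.cons_val_zero]
          rw [mul_div_cancel₀ _ hsc]
      exact congrArg (fun x => eval x (lead P)) h7
    rw [h6, h, mul_zero]

section unit

variable (a b : ℂ) (hab : ‖a‖ ^ 2 + ‖b‖ ^ 2 = 1)

include hab in
theorem ab1 : a * (starRingEnd ℂ) a + b * (starRingEnd ℂ) b = 1 := by
  rw [Complex.mul_conj, Complex.mul_conj, Complex.normSq_eq_norm_sq, Complex.normSq_eq_norm_sq]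
  exact_mod_cast hab

include hab in
theorem Uc_Ut (z : Fin 2 → ℂ) : Uc a b (Ut a b z) = z := by
  have h1 := ab1 a b hab
  ext i
  fin_cases i
  · simp only [Uc, Ut, Fin.zero_eta, Matrix.cons_val_zero, Matrix.cons_val_one]
    linear_combination (z 0) * h1
  · simp only [Uc, Ut, Fin.mk_one, Matrix.cons_val_zero, Matrix.cons_val_one]
    linear_combination (z 1) * h1

theorem Um_conj (z : Fin 2 → ℂ) : Um a b (fun i => (starRingEnd ℂ) (z i)) =
    fun i => (starRingEnd ℂ) (Uc a b z i) := by
  ext i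
  fin_cases i
  · simp [Um, Uc]
  · simp [Um, Uc]

theorem pair (w z : Fin 2 → ℂ) : ∑ j, Um a b w j * z j = ∑ j, w j * Ut a b z j := by
  simp only [Fin.sum_univ_two, Um, Ut, Matrix.cons_val_zero, Matrix.cons_val_one]
  ring

include hab in
theorem Um_inj (z : Fin 2 → ℂ) (h : Um a b z = 0) : z = 0 := by
  have h1 := ab1 a b hab
  have e0 := congrFun h 0
  have e1 := congrFun h 1
  simp only [Um, Matrix.cons_val_zero, Matrix.cons_val_one, Pi.zero_apply] at e0 e1
  ext i
  fin_cases i
  · simp only [Fin.zero_eta, Pi.zero_apply]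
    linear_combination b * e0 - a * e1 - z 0 * h1
  · simp only [Fin.mk_one, Pi.zero_apply]
    linear_combination (starRingEnd ℂ) a * e0 + (starRingEnd ℂ) b * e1 - z 1 * h1

include hab in
theorem red_sbt (P : Pol) (hP : Red P) (h : eval ![a, b] (lead P) ≠ 0) : Red (sbt a b P) := by
  have h1 := ab1 a b hab
  intro z hz hz0
  rw [lead_sbt a b P h, eval_sbt] at hz0
  obtain ⟨i, hi⟩ := hP (Um a b z) (fun h0 => hz (Um_inj a b hab z h0)) hz0
  by_contra hcon
  push Not at hcon
  rw [lead_sbt a b P h] at hcon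
  have e0 := hcon 0
  have e1 := hcon 1
  rw [(pd_sbt a b (lead P)).1, map_add, map_mul, map_mul, eval_sbt, eval_sbt, eval_C, eval_C] at e0
  rw [(pd_sbt a b (lead P)).2, map_add, map_mul, map_mul, eval_sbt, eval_sbt, eval_C, eval_C] at e1
  apply hi
  fin_cases i
  · simp only [Fin.zero_eta]
    linear_combination b * e0 + (starRingEnd ℂ) a * e1 -
      (eval (Um a b z) (pderiv 0 (lead P))) * h1
  · simp only [Fin.mk_one]
    linear_combination (-a) * e0 + (starRingEnd ℂ) b * e1 -
      (eval (Um a b z) (pderiv 1 (lead P))) * h1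

end unit

theorem uni : S_UNI := by
  intro hall P hP
  obtain ⟨a, b, hab, hdir⟩ := exists_dir P hP
  have hred := red_sbt a b hab P hP hdir
  have hne : eval ![0, 1] (lead (sbt a b P)) ≠ 0 := by
    rw [lead_sbt a b P hdir, eval_sbt]
    have h2 : Um a b ![0, 1] = ![a, b] := by
      ext i
      fin_cases i <;> simp [Um]
    rw [h2]
    exact hdir
  have hS := hall (sbt a b P) hred hne
  have ha1 : ‖a‖ ≤ 1 := by nlinarith [norm_nonneg a, sq_nonneg ‖b‖]
  have hb1 : ‖b‖ ≤ 1 := by nlinarith [norm_nonneg b, sq_nonneg ‖a‖]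
  have hUmd : Differentiable ℂ (Um a b) := by
    rw [differentiable_pi]
    intro i
    fin_cases i
    · change Differentiable ℂ fun z : Fin 2 → ℂ => (starRingEnd ℂ) b * z 0 + a * z 1
      fun_prop
    · change Differentiable ℂ fun z : Fin 2 → ℂ => -(starRingEnd ℂ) a * z 0 + b * z 1
      fun_prop
  have hUcd : Differentiable ℂ (Uc a b) := by
    rw [differentiable_pi]
    intro i
    fin_cases i
    · change Differentiable ℂ fun z : Fin 2 → ℂ => b * z 0 + (starRingEnd ℂ) a * z 1
      fun_prop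
    · change Differentiable ℂ fun z : Fin 2 → ℂ => -a * z 0 + (starRingEnd ℂ) b * z 1
      fun_prop
  have hUtd : Differentiable ℂ (Ut a b) := by
    rw [differentiable_pi]
    intro i
    fin_cases i
    · change Differentiable ℂ fun z : Fin 2 → ℂ =>
        (starRingEnd ℂ) b * z 0 - (starRingEnd ℂ) a * z 1
      fun_prop
    · change Differentiable ℂ fun z : Fin 2 → ℂ => a * z 0 + b * z 1
      fun_prop
  have hUcn : ∀ z, ‖Uc a b z‖ ≤ 2 * ‖z‖ := by
    intro z
    rw [pi_norm_le_iff_of_nonneg (by positivity)]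
    have h0 := norm_le_pi_norm z 0
    have h1 := norm_le_pi_norm z 1
    intro i
    fin_cases i
    · change ‖b * z 0 + (starRingEnd ℂ) a * z 1‖ ≤ 2 * ‖z‖
      refine le_trans (norm_add_le _ _) ?_
      rw [norm_mul, norm_mul, RCLike.norm_conj]
      nlinarith [norm_nonneg (z 0), norm_nonneg (z 1), norm_nonneg a, norm_nonneg b]
    · change ‖-a * z 0 + (starRingEnd ℂ) b * z 1‖ ≤ 2 * ‖z‖
      refine le_trans (norm_add_le _ _) ?_
      rw [norm_mul, norm_mul, RCLike.norm_conj, norm_neg]
      nlinarith [norm_nonneg (z 0), norm_nonneg (z 1), norm_nonneg a, norm_nonneg b]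
  have hUtn : ∀ z, ‖Ut a b z‖ ≤ 2 * ‖z‖ := by
    intro z
    rw [pi_norm_le_iff_of_nonneg (by positivity)]
    have h0 := norm_le_pi_norm z 0
    have h1 := norm_le_pi_norm z 1
    intro i
    fin_cases i
    · change ‖(starRingEnd ℂ) b * z 0 - (starRingEnd ℂ) a * z 1‖ ≤ 2 * ‖z‖
      refine le_trans (norm_sub_le _ _) ?_
      rw [norm_mul, norm_mul, RCLike.norm_conj, RCLike.norm_conj]
      nlinarith [norm_nonneg (z 0), norm_nonneg (z 1), norm_nonneg a, norm_nonneg b]
    · change ‖a * z 0 + b * z 1‖ ≤ 2 * ‖z‖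
      refine le_trans (norm_add_le _ _) ?_
      rw [norm_mul, norm_mul]
      nlinarith [norm_nonneg (z 0), norm_nonneg (z 1), norm_nonneg a, norm_nonneg b]
  have hexp : ∀ (f : (Fin 2 → ℂ) → ℂ) (L : (Fin 2 → ℂ) → (Fin 2 → ℂ)), ExpType f →
      Differentiable ℂ L → (∀ z, ‖L z‖ ≤ 2 * ‖z‖) → ExpType (fun z => f (L z)) := by
    rintro f L ⟨hf, C, B, hCB⟩ hL hLn
    refine ⟨Differentiable.comp hf hL, C, 2 * |B|, fun z => ?_⟩
    have hC : 0 ≤ C := by
      have := hCB 0
      rw [norm_zero, mul_zero, Real.exp_zero, mul_one] at this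
      exact le_trans (norm_nonneg _) this
    refine le_trans (hCB (L z)) (mul_le_mul_of_nonneg_left (Real.exp_le_exp.2 ?_) hC)
    calc B * ‖L z‖ ≤ |B| * ‖L z‖ := mul_le_mul_of_nonneg_right (le_abs_self B) (norm_nonneg _)
      _ ≤ |B| * (2 * ‖z‖) := mul_le_mul_of_nonneg_left (hLn z) (abs_nonneg B)
      _ = 2 * |B| * ‖z‖ := by ring
  intro G hG
  obtain ⟨T', ⟨hAF, hkill⟩, g, hg, hgz⟩ := hS (fun z => G (Uc a b z)) (hexp G _ hG hUcd hUcn)
  refine ⟨fun f => T' (fun z => f (Um a b z)), ⟨⟨?_, ?_, ?_⟩, ?_⟩,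
    fun z => g (Ut a b z), hexp g _ hg hUtd hUtn, ?_⟩
  · intro f1 f2 h1 h2
    exact hAF.add _ _ (Differentiable.comp h1 hUmd) (Differentiable.comp h2 hUmd)
  · intro c f hf
    exact hAF.smul c _ (Differentiable.comp hf hUmd)
  · obtain ⟨K, Cc, hK, hb⟩ := hAF.bound
    refine ⟨Um a b '' K, Cc, hK.image hUmd.continuous, fun f M hf hM hfM => ?_⟩
    exact hb _ M (Differentiable.comp hf hUmd) hM fun z hz => hfM _ ⟨z, hz, rfl⟩
  · intro f hf
    have h1 := hkill (fun z => f (Um a b z)) (Differentiable.comp hf hUmd)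
    simp only [eval_sbt] at h1
    exact h1
  · intro z
    have h1 : FBorel T' (Ut a b z) - G (Uc a b (Ut a b z)) =
      eval (Ut a b z) (Inj.star (sbt a b P)) * g (Ut a b z) := hgz (Ut a b z)
    have h2 : FBorel (fun f => T' (fun z => f (Um a b z))) z = FBorel T' (Ut a b z) := by
      unfold FBorel
      simp only [pair]
    have h3 : eval (Ut a b z) (star (sbt a b P)) = eval z (star P) := by
      have h4 := conj_eval (sbt a b P) (Ut a b z)
      have h5 := conj_eval P z
      change eval (Ut a b z) (conjP (sbt a b P)) = eval z (conjP P)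
      rw [h4, h5, eval_sbt, Um_conj, Uc_Ut a b hab]
    rw [Uc_Ut a b hab] at h1
    change FBorel (fun f => T' (fun z => f (Um a b z))) z - G z =
      eval z (Inj.star P) * g (Ut a b z)
    rw [h2, h1, h3]

end Pool.Agent.Helper19.FB

theorem Pool.Agent.Helper25.FB.uni_thm : Pool.Agent.Helper25.FB.S_UNI :=
  Pool.Agent.Helper19.FB.uni
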