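import Pool.Agent.Helper19.FB.Param2
import Pool.Agent.Helper21.FB.LAU
import Pool.Agent.Helper19.FB.UNI

/-!
# FB, part DIV1: Weierstrass division by the Cauchy integral
-/

set_option autoImplicit false

namespace Pool.Agent.Helper19.FB.DIV

open Pool.Agent.Helper25.FB Pool.Agent.Helper25.FB.Inj Filter Topology Metric Set MvPolynomial

theorem circ_cont (R : ℝ) : Continuous fun θ : ℝ => deriv (circleMap (0 : ℂ) R) θ := by
  have : (fun θ : ℝ => deriv (circleMap (0 : ℂ) R) θ) = fun θ => circleMap 0 R θ * Complex.I := by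
    funext θ
    rw [deriv_circleMap]
  rw [this]
  exact (continuous_circleMap 0 R).mul continuous_const

/-- circle integrals depending on parameters -/
theorem gen {n : ℕ} (h : (Fin n → ℂ) → ℂ → ℂ) (r : (Fin n → ℂ) → ℝ) (hr : Continuous r)
    (hr0 : ∀ v, 0 ≤ r v)
    (hc : ContinuousOn (fun p : (Fin n → ℂ) × ℂ => h p.1 p.2) {p | r p.1 < ‖p.2‖})
    (hv : ∀ ζ, DifferentiableOn ℂ (fun v => h v ζ) {v | r v < ‖ζ‖})
    (hz : ∀ v, DifferentiableOn ℂ (h v) {ζ | r v < ‖ζ‖}) :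
    (∀ v R, r v < R → (∮ ζ in C(0, r v + 1), h v ζ) = ∮ ζ in C(0, R), h v ζ) ∧
    Differentiable ℂ (fun v => ∮ ζ in C(0, r v + 1), h v ζ) := by
  have h1 : ∀ v R, r v < R → (∮ ζ in C(0, r v + 1), h v ζ) = ∮ ζ in C(0, R), h v ζ := by
    intro v R hR
    exact Pool.Agent.Helper21.FB.circ_eq (hr0 v) (hz v) (by linarith) hR
  refine ⟨h1, fun v0 => ?_⟩
  set R0 : ℝ := r v0 + 1 with hR0
  have hR0p : 0 < R0 := by linarith [hr0 v0]
  have hUo : IsOpen {v | r v < R0} := isOpen_lt hr continuous_const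
  have hcm : ∀ θ : ℝ, ‖circleMap (0 : ℂ) R0 θ‖ = R0 := fun θ => by
    rw [norm_circleMap_zero, abs_of_pos hR0p]
  have h2 : DifferentiableOn ℂ (fun v => ∫ θ in (0 : ℝ)..2 * Real.pi,
      deriv (circleMap (0 : ℂ) R0) θ • h v (circleMap 0 R0 θ)) {v | r v < R0} := by
    refine diff_param2 _ hUo _ _ (fun v θ => deriv (circleMap (0 : ℂ) R0) θ •
      h v (circleMap 0 R0 θ)) ?_ ?_
    · refine ContinuousOn.smul ((circ_cont R0).comp continuous_snd).continuousOn ?_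
      have h3 : Continuous fun p : (Fin n → ℂ) × ℝ => (p.1, circleMap (0 : ℂ) R0 p.2) :=
        continuous_fst.prodMk ((continuous_circleMap 0 R0).comp continuous_snd)
      have h4 : ContinuousOn ((fun p : (Fin n → ℂ) × ℂ => h p.1 p.2) ∘
          fun p : (Fin n → ℂ) × ℝ => (p.1, circleMap (0 : ℂ) R0 p.2))
          ({v | r v < R0} ×ˢ Set.univ) := by
        refine ContinuousOn.comp hc h3.continuousOn ?_
        rintro ⟨v, θ⟩ ⟨hv1, _⟩
        change r v < ‖circleMap (0 : ℂ) R0 θ‖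
        rw [hcm]
        exact hv1
      exact h4
    · intro θ
      have h5 := hv (circleMap (0 : ℂ) R0 θ)
      rw [hcm] at h5
      exact h5.const_smul (deriv (circleMap (0 : ℂ) R0) θ)
  have h6 : DifferentiableAt ℂ (fun v => ∮ ζ in C(0, R0), h v ζ) v0 :=
    (h2 v0 (by
      change r v0 < R0
      linarith)).differentiableAt (hUo.mem_nhds (by
      change r v0 < R0
      linarith))
  refine h6.congr_of_eventuallyEq ?_
  filter_upwards [hUo.mem_nhds (show v0 ∈ {v | r v < R0} by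
    change r v0 < R0
    linarith)] with v hv1
  exact h1 v R0 hv1

theorem lower (Q : Pol) (h : eval ![0, 1] (lead Q) ≠ 0) :
    ∃ C0 κ : ℝ, 1 ≤ C0 ∧ 0 < κ ∧ ∀ x ζ : ℂ, C0 * (1 + ‖x‖) ≤ ‖ζ‖ → κ ≤ ‖eval ![x, ζ] Q‖ := by
  set m := Q.totalDegree with hm
  let Φ : ℂ × ℂ → ℂ := fun p => ∑ d ∈ Finset.range (m + 1),
    p.2 ^ (m - d) * eval ![p.1, 1] (homogeneousComponent d Q)
  have hΦc : Continuous Φ := by
    refine continuous_finsetSum _ fun d _ => ?_
    refine (continuous_snd.pow _).mul ?_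
    have h1 : Continuous fun p : ℂ × ℂ => (![p.1, 1] : Fin 2 → ℂ) := by
      refine continuous_pi fun i => ?_
      fin_cases i
      · exact continuous_fst
      · exact continuous_const
    exact (MvPolynomial.continuous_eval _).comp h1
  have hΦ0 : Φ (0, 0) = eval ![0, 1] (lead Q) := by
    change ∑ d ∈ Finset.range (m + 1), (0 : ℂ) ^ (m - d) *
      eval ![0, 1] (homogeneousComponent d Q) = _
    rw [Finset.sum_eq_single m]
    · rw [Nat.sub_self, pow_zero, one_mul]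
      rfl
    · intro d hd hdm
      have : m - d ≠ 0 := by
        have := Finset.mem_range.1 hd
        omega
      rw [zero_pow this, zero_mul]
    · intro hm'
      exact absurd (Finset.self_mem_range_succ m) hm'
  have hpos : 0 < ‖Φ (0, 0)‖ := by
    rw [hΦ0]
    exact norm_pos_iff.2 h
  have hev : ∀ᶠ p in 𝓝 ((0, 0) : ℂ × ℂ), ‖Φ (0, 0)‖ / 2 < ‖Φ p‖ :=
    (hΦc.norm.tendsto (0, 0)).eventually (lt_mem_nhds (by linarith))
  obtain ⟨δ, hδ, hball⟩ := Metric.eventually_nhds_iff.1 hev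
  refine ⟨max 1 (2 / δ), ‖Φ (0, 0)‖ / 2, le_max_left _ _, by linarith, ?_⟩
  intro x ζ hx
  set C0 : ℝ := max 1 (2 / δ) with hC0
  have hC1 : 1 ≤ C0 := le_max_left _ _
  have hC2 : 2 / δ ≤ C0 := le_max_right _ _
  have hxn := norm_nonneg x
  have hζ1 : 1 ≤ ‖ζ‖ := by nlinarith
  have hζC : C0 ≤ ‖ζ‖ := by nlinarith
  have hζx : C0 * ‖x‖ ≤ ‖ζ‖ := by nlinarith
  have hζ0 : ζ ≠ 0 := by
    intro h0
    rw [h0, norm_zero] at hζ1
    linarith
  have hinv : C0⁻¹ < δ := by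
    have h2 : 2 / δ > 0 := by positivity
    have h3 : C0⁻¹ ≤ (2 / δ)⁻¹ := inv_anti₀ h2 hC2
    rw [inv_div] at h3
    linarith
  have hform : eval ![x, ζ] Q = ζ ^ m * Φ (x / ζ, ζ⁻¹) := by
    conv_lhs => rw [← sum_homogeneousComponent Q]
    rw [map_sum, Finset.mul_sum]
    refine Finset.sum_congr rfl fun d hd => ?_
    have hdm : d ≤ m := Nat.lt_succ_iff.1 (Finset.mem_range.1 hd)
    have h4 := hom_scale (homogeneousComponent d Q) d (homogeneousComponent_isHomogeneous d Q) ζ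
      ![x / ζ, 1]
    have h5 : (fun i => ζ * (![x / ζ, 1] : Fin 2 → ℂ) i) = ![x, ζ] := by
      ext i
      fin_cases i
      · simp only [Fin.zero_eta, Matrix.cons_val_zero]
        rw [mul_div_cancel₀ _ hζ0]
      · simp
    rw [h5] at h4
    rw [h4]
    have h6 : ζ ^ m * (ζ⁻¹ ^ (m - d)) = ζ ^ d := by
      have h9 : ζ ^ m = ζ ^ d * ζ ^ (m - d) := by
        rw [← pow_add, Nat.add_sub_cancel' hdm]
      rw [h9, mul_assoc, ← mul_pow, mul_inv_cancel₀ hζ0, one_pow, mul_one]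
    change ζ ^ d * _ = ζ ^ m * (ζ⁻¹ ^ (m - d) * _)
    rw [← mul_assoc, h6]
  rw [hform, norm_mul, norm_pow]
  have h7 : ‖Φ (0, 0)‖ / 2 < ‖Φ (x / ζ, ζ⁻¹)‖ := by
    apply hball
    rw [Prod.dist_eq, dist_zero_right, dist_zero_right]
    refine max_lt ?_ ?_
    · change ‖x / ζ‖ < δ
      rw [norm_div]
      refine lt_of_le_of_lt ?_ hinv
      rw [div_le_iff₀ (by linarith), inv_mul_eq_div, le_div_iff₀ (by linarith)]
      linarith
    · change ‖ζ⁻¹‖ < δ
      rw [norm_inv]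
      exact lt_of_le_of_lt (inv_anti₀ (by linarith) hζC) hinv
  have h8 : 1 ≤ ‖ζ‖ ^ m := one_le_pow₀ hζ1
  nlinarith [norm_nonneg (Φ (x / ζ, ζ⁻¹))]

/-- coefficients with respect to the second variable -/
noncomputable def qk (Q : Pol) (k : ℕ) (x : ℂ) : ℂ :=
  ∑ d ∈ Q.support with d 1 = k, coeff d Q * x ^ (d 0)

theorem qk_diff (Q : Pol) (k : ℕ) : Differentiable ℂ (qk Q k) := by
  unfold qk
  fun_prop

theorem eval_qk (Q : Pol) (x y : ℂ) :
    eval ![x, y] Q = ∑ k ∈ Finset.range (Q.totalDegree + 1), qk Q k x * y ^ k := by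
  rw [eval_eq']
  have hmaps : ∀ d ∈ Q.support, d 1 ∈ Finset.range (Q.totalDegree + 1) := by
    intro d hd
    rw [Finset.mem_range, Nat.lt_succ_iff]
    have h1 := le_totalDegree hd
    have h2 : (d.sum fun _ e => e) = d 0 + d 1 := by
      simp [Finsupp.sum_fintype]
    omega
  rw [← Finset.sum_fiberwise_of_maps_to hmaps]
  refine Finset.sum_congr rfl fun k _ => ?_
  unfold qk
  rw [Finset.sum_mul]
  refine Finset.sum_congr rfl fun d hd => ?_
  have hk : d 1 = k := (Finset.mem_filter.1 hd).2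
  rw [Fin.prod_univ_two]
  simp only [Matrix.cons_val_zero, Matrix.cons_val_one]
  rw [hk]
  ring

/-- the divided difference -/
noncomputable def DD (Q : Pol) (i : ℕ) (x ζ : ℂ) : ℂ :=
  ∑ k ∈ Finset.range (Q.totalDegree + 1), if i < k then qk Q k x * ζ ^ (k - 1 - i) else 0

theorem dd_eq (Q : Pol) (x y ζ : ℂ) :
    (ζ - y) * ∑ i ∈ Finset.range Q.totalDegree, DD Q i x ζ * y ^ i =
      eval ![x, ζ] Q - eval ![x, y] Q := by
  rw [eval_qk, eval_qk, ← Finset.sum_sub_distrib]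
  unfold DD
  simp_rw [Finset.sum_mul]
  rw [Finset.sum_comm, Finset.mul_sum]
  refine Finset.sum_congr rfl fun k hk => ?_
  have hkm : k ≤ Q.totalDegree := Nat.lt_succ_iff.1 (Finset.mem_range.1 hk)
  have h1 : ∑ i ∈ Finset.range Q.totalDegree,
      (if i < k then qk Q k x * ζ ^ (k - 1 - i) else 0) * y ^ i =
      qk Q k x * ∑ i ∈ Finset.range k, y ^ i * ζ ^ (k - 1 - i) := by
    rw [Finset.mul_sum]
    have h2 : Finset.range k ⊆ Finset.range Q.totalDegree := Finset.range_mono hkm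
    rw [← Finset.sum_subset h2]
    · refine Finset.sum_congr rfl fun i hi => ?_
      rw [if_pos (Finset.mem_range.1 hi)]
      ring
    · intro i _ hi
      rw [if_neg (fun h => hi (Finset.mem_range.2 h)), zero_mul]
  rw [h1]
  have h3 := geom_sum₂_mul y ζ k
  have h4 : (ζ - y) * (qk Q k x * ∑ i ∈ Finset.range k, y ^ i * ζ ^ (k - 1 - i)) =
      -(qk Q k x * ((∑ i ∈ Finset.range k, y ^ i * ζ ^ (k - 1 - i)) * (y - ζ))) := by ring
  rw [h4, h3]
  ring

theorem DD_cont (Q : Pol) (i : ℕ) : Differentiable ℂ (fun p : ℂ × ℂ => DD Q i p.1 p.2) := by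
  unfold DD
  refine Differentiable.fun_sum fun k _ => ?_
  split_ifs
  · exact ((qk_diff Q k).comp differentiable_fst).mul (differentiable_snd.pow _)
  · exact differentiable_const _

theorem eval_diff (P : Pol) : Differentiable ℂ (fun z : Fin 2 → ℂ => eval z P) := by
  induction P using MvPolynomial.induction_on with
  | C a => simp
  | add p q hp hq =>
    simp only [map_add]
    exact hp.fun_add hq
  | mul_X p i hp =>
    simp only [map_mul, MvPolynomial.eval_X]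
    exact hp.fun_mul (differentiable_apply i)

theorem vec_diff : Differentiable ℂ (fun p : ℂ × ℂ => (![p.1, p.2] : Fin 2 → ℂ)) := by
  rw [differentiable_pi]
  intro i
  fin_cases i
  · exact differentiable_fst
  · exact differentiable_snd

section main

variable (Q : Pol) (G : (Fin 2 → ℂ) → ℂ)

/-- the integrand -/
noncomputable def hh (v : Fin 2 → ℂ) (ζ : ℂ) : ℂ :=
  G ![v 0, ζ] / (eval ![v 0, ζ] Q * (ζ - v 1))

/-- the integrand for the remainder -/
noncomputable def h1 (i : ℕ) (v : Fin 1 → ℂ) (ζ : ℂ) : ℂ :=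
  G ![v 0, ζ] / eval ![v 0, ζ] Q * DD Q i (v 0) ζ

/-- radius -/
noncomputable def rr (C0 : ℝ) (v : Fin 2 → ℂ) : ℝ := max ‖v 1‖ (C0 * (1 + ‖v 0‖))

/-- radius -/
noncomputable def r1 (C0 : ℝ) (v : Fin 1 → ℂ) : ℝ := C0 * (1 + ‖v 0‖)

variable {Q G}

theorem dmd1 {E : Type*} [NormedAddCommGroup E] [NormedSpace ℂ E] (f1 f2 f3 : E → ℂ) (p : E)
    (d1 : DifferentiableAt ℂ f1 p) (d2 : DifferentiableAt ℂ f2 p) (d3 : DifferentiableAt ℂ f3 p)
    (hne : f2 p * f3 p ≠ 0) : DifferentiableAt ℂ (fun p => f1 p / (f2 p * f3 p)) p :=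
  by
  have h := d2.fun_mul d3
  have h' : DifferentiableAt ℂ (fun p => (f2 p * f3 p)⁻¹) p :=
    DifferentiableAt.comp p (g := fun z : ℂ => z⁻¹) (f := fun p => f2 p * f3 p)
      (differentiableAt_inv hne) h
  simp only [div_eq_mul_inv]
  exact d1.fun_mul h'

theorem dmd2 {E : Type*} [NormedAddCommGroup E] [NormedSpace ℂ E] (f1 f2 f3 : E → ℂ) (p : E)
    (d1 : DifferentiableAt ℂ f1 p) (d2 : DifferentiableAt ℂ f2 p) (d3 : DifferentiableAt ℂ f3 p)
    (hne : f2 p ≠ 0) : DifferentiableAt ℂ (fun p => f1 p / f2 p * f3 p) p :=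
  by
  have h' : DifferentiableAt ℂ (fun p => (f2 p)⁻¹) p :=
    DifferentiableAt.comp p (g := fun z : ℂ => z⁻¹) (f := f2) (differentiableAt_inv hne) d2
  simp only [div_eq_mul_inv]
  exact (d1.fun_mul h').fun_mul d3

theorem hh_props {C0 κ : ℝ} (hC0 : 1 ≤ C0) (hκ : 0 < κ)
    (hlow : ∀ x ζ : ℂ, C0 * (1 + ‖x‖) ≤ ‖ζ‖ → κ ≤ ‖eval ![x, ζ] Q‖) (hG : Entire G) :
    Continuous (rr C0) ∧ (∀ v, 0 ≤ rr C0 v) ∧
    ContinuousOn (fun p : (Fin 2 → ℂ) × ℂ => hh Q G p.1 p.2) {p | rr C0 p.1 < ‖p.2‖} ∧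
    (∀ ζ, DifferentiableOn ℂ (fun v => hh Q G v ζ) {v | rr C0 v < ‖ζ‖}) ∧
    (∀ v, DifferentiableOn ℂ (hh Q G v) {ζ | rr C0 v < ‖ζ‖}) := by
  have hG' : Differentiable ℂ G := hG
  have hne : ∀ (v : Fin 2 → ℂ) (ζ : ℂ), rr C0 v < ‖ζ‖ → eval ![v 0, ζ] Q * (ζ - v 1) ≠ 0 := by
    intro v ζ h
    have ha : ‖v 1‖ < ‖ζ‖ := lt_of_le_of_lt (le_max_left _ _) h
    have hb : C0 * (1 + ‖v 0‖) < ‖ζ‖ := lt_of_le_of_lt (le_max_right _ _) h
    refine mul_ne_zero ?_ ?_
    · intro h0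
      have := hlow (v 0) ζ hb.le
      rw [h0, norm_zero] at this
      linarith
    · intro h0
      rw [sub_eq_zero] at h0
      rw [h0] at ha
      exact lt_irrefl _ ha
  have hd : ∀ p : (Fin 2 → ℂ) × ℂ, rr C0 p.1 < ‖p.2‖ →
      DifferentiableAt ℂ (fun p : (Fin 2 → ℂ) × ℂ => hh Q G p.1 p.2) p := by
    intro p hp
    have hvec : Differentiable ℂ (fun p : (Fin 2 → ℂ) × ℂ => (![p.1 0, p.2] : Fin 2 → ℂ)) :=
      vec_diff.comp (f := fun p : (Fin 2 → ℂ) × ℂ => ((p.1 0, p.2) : ℂ × ℂ)) (by fun_prop)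
    have e1 : Differentiable ℂ (fun p : (Fin 2 → ℂ) × ℂ => G ![p.1 0, p.2]) := hG'.comp hvec
    have e2 : Differentiable ℂ (fun p : (Fin 2 → ℂ) × ℂ => eval ![p.1 0, p.2] Q) :=
      (eval_diff Q).comp hvec
    have e3 : Differentiable ℂ (fun p : (Fin 2 → ℂ) × ℂ => p.2 - p.1 1) := by fun_prop
    have h0 := hne p.1 p.2 hp
    exact dmd1 _ _ _ p (e1 p) (e2 p) (e3 p) h0
  refine ⟨?_, ?_, ?_, ?_, ?_⟩
  · unfold rr
    fun_prop
  · intro v
    exact le_trans (norm_nonneg _) (le_max_left _ _)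
  · intro p hp
    exact (hd p hp).continuousAt.continuousWithinAt
  · intro ζ v hv
    have e4 : DifferentiableAt ℂ (fun v : Fin 2 → ℂ => (v, ζ)) v := by fun_prop
    exact (DifferentiableAt.comp v (hd (v, ζ) hv) e4).differentiableWithinAt
  · intro v ζ hv
    have e4 : DifferentiableAt ℂ (fun ζ : ℂ => (v, ζ)) ζ := by fun_prop
    exact (DifferentiableAt.comp ζ (hd (v, ζ) hv) e4).differentiableWithinAt

set_option maxHeartbeats 1000000 in
theorem h1_props {C0 κ : ℝ} (hC0 : 1 ≤ C0) (hκ : 0 < κ)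
    (hlow : ∀ x ζ : ℂ, C0 * (1 + ‖x‖) ≤ ‖ζ‖ → κ ≤ ‖eval ![x, ζ] Q‖) (hG : Entire G) (i : ℕ) :
    Continuous (r1 C0) ∧ (∀ v, 0 ≤ r1 C0 v) ∧
    ContinuousOn (fun p : (Fin 1 → ℂ) × ℂ => h1 Q G i p.1 p.2) {p | r1 C0 p.1 < ‖p.2‖} ∧
    (∀ ζ, DifferentiableOn ℂ (fun v => h1 Q G i v ζ) {v | r1 C0 v < ‖ζ‖}) ∧
    (∀ v, DifferentiableOn ℂ (h1 Q G i v) {ζ | r1 C0 v < ‖ζ‖}) := by
  have hG' : Differentiable ℂ G := hG
  have hne : ∀ (v : Fin 1 → ℂ) (ζ : ℂ), r1 C0 v < ‖ζ‖ → eval ![v 0, ζ] Q ≠ 0 := by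
    intro v ζ h h0
    have := hlow (v 0) ζ (le_of_lt h)
    rw [h0, norm_zero] at this
    linarith
  have hd : ∀ p : (Fin 1 → ℂ) × ℂ, r1 C0 p.1 < ‖p.2‖ →
      DifferentiableAt ℂ (fun p : (Fin 1 → ℂ) × ℂ => h1 Q G i p.1 p.2) p := by
    intro p hp
    have hpr : Differentiable ℂ (fun p : (Fin 1 → ℂ) × ℂ => ((p.1 0, p.2) : ℂ × ℂ)) := by fun_prop
    have hvec : Differentiable ℂ (fun p : (Fin 1 → ℂ) × ℂ => (![p.1 0, p.2] : Fin 2 → ℂ)) :=
      vec_diff.comp hpr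
    have e1 : Differentiable ℂ (fun p : (Fin 1 → ℂ) × ℂ => G ![p.1 0, p.2]) := hG'.comp hvec
    have e2 : Differentiable ℂ (fun p : (Fin 1 → ℂ) × ℂ => eval ![p.1 0, p.2] Q) :=
      (eval_diff Q).comp hvec
    have e3 : Differentiable ℂ ((fun q : ℂ × ℂ => DD Q i q.1 q.2) ∘
        fun p : (Fin 1 → ℂ) × ℂ => ((p.1 0, p.2) : ℂ × ℂ)) :=
      Differentiable.comp (DD_cont Q i) hpr
    have h0 := hne p.1 p.2 hp
    exact dmd2 (fun p : (Fin 1 → ℂ) × ℂ => G ![p.1 0, p.2])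
      (fun p : (Fin 1 → ℂ) × ℂ => eval ![p.1 0, p.2] Q)
      ((fun q : ℂ × ℂ => DD Q i q.1 q.2) ∘ fun p : (Fin 1 → ℂ) × ℂ => ((p.1 0, p.2) : ℂ × ℂ))
      p (e1 p) (e2 p) (e3 p) h0
  refine ⟨?_, ?_, ?_, ?_, ?_⟩
  · unfold r1
    fun_prop
  · intro v
    unfold r1
    positivity
  · intro p hp
    exact (hd p hp).continuousAt.continuousWithinAt
  · intro ζ v hv
    have e4 : DifferentiableAt ℂ (fun v : Fin 1 → ℂ => (v, ζ)) v := by fun_prop
    exact (DifferentiableAt.comp v (hd (v, ζ) hv) e4).differentiableWithinAt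
  · intro v ζ hv
    have e4 : DifferentiableAt ℂ (fun ζ : ℂ => (v, ζ)) ζ := by fun_prop
    exact (DifferentiableAt.comp ζ (hd (v, ζ) hv) e4).differentiableWithinAt

theorem div1 (Q : Pol) (G : (Fin 2 → ℂ) → ℂ) (hQ : eval ![0, 1] (lead Q) ≠ 0) (hG : Entire G) :
    ∃ (g : (Fin 2 → ℂ) → ℂ) (c : ℕ → ℂ → ℂ), Entire g ∧ (∀ i, Differentiable ℂ (c i)) ∧
    (∀ x y : ℂ, G ![x, y] = MvPolynomial.eval ![x, y] Q * g ![x, y] +
      ∑ i ∈ Finset.range Q.totalDegree, c i x * y ^ i) ∧ (ExpType G → ExpType g) := by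
  obtain ⟨C0, κ, hC0, hκ, hlow⟩ := lower Q hQ
  obtain ⟨p1, p2, p3, p4, p5⟩ := hh_props hC0 hκ hlow hG
  obtain ⟨g1, g2⟩ := gen (hh Q G) (rr C0) p1 p2 p3 p4 p5
  have hc := fun i => h1_props hC0 hκ hlow hG i
  have hcg := fun i => gen (h1 Q G i) (r1 C0) (hc i).1 (hc i).2.1 (hc i).2.2.1 (hc i).2.2.2.1
    (hc i).2.2.2.2
  have hG' : Differentiable ℂ G := hG
  have h2pi : (2 * Real.pi * Complex.I : ℂ) ≠ 0 := Complex.two_pi_I_ne_zero
  refine ⟨fun v => (2 * Real.pi * Complex.I)⁻¹ * ∮ ζ in C(0, rr C0 v + 1), hh Q G v ζ,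
    fun i x => (2 * Real.pi * Complex.I)⁻¹ *
      ∮ ζ in C(0, r1 C0 (fun _ => x) + 1), h1 Q G i (fun _ => x) ζ, ?_, ?_, ?_, ?_⟩
  · exact g2.const_mul _
  · intro i
    refine Differentiable.const_mul ?_ _
    have e1 : Differentiable ℂ (fun x : ℂ => ((fun _ => x) : Fin 1 → ℂ)) := by fun_prop
    exact ((hcg i).2).comp e1
  · intro x y
    set R : ℝ := rr C0 ![x, y] + 1 with hR
    have hRr : rr C0 ![x, y] < R := by rw [hR]; linarith
    have hy : ‖y‖ < R := lt_of_le_of_lt (le_max_left _ _) hRr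
    have hx : C0 * (1 + ‖x‖) < R := lt_of_le_of_lt (le_max_right _ _) hRr
    have hR0 : 0 < R := lt_of_le_of_lt (norm_nonneg _) hy
    have hc1 : ∀ i, (∮ ζ in C(0, r1 C0 (fun _ => x) + 1), h1 Q G i (fun _ => x) ζ) =
        ∮ ζ in C(0, R), h1 Q G i (fun _ => x) ζ := fun i => (hcg i).1 _ _ hx
    have hvec : Differentiable ℂ (fun ζ : ℂ => (![x, ζ] : Fin 2 → ℂ)) :=
      vec_diff.comp (f := fun ζ : ℂ => ((x, ζ) : ℂ × ℂ)) (by fun_prop)
    have hGz : Differentiable ℂ (fun ζ : ℂ => G ![x, ζ]) := hG'.comp hvec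
    have hQz : Differentiable ℂ (fun ζ : ℂ => eval ![x, ζ] Q) := (eval_diff Q).comp hvec
    have hQne : ∀ ζ ∈ sphere (0 : ℂ) R, eval ![x, ζ] Q ≠ 0 := by
      intro ζ hζ h0
      have hζ' : ‖ζ‖ = R := by simpa using hζ
      have := hlow x ζ (by rw [hζ']; exact hx.le)
      rw [h0, norm_zero] at this
      linarith
    have hyne : ∀ ζ ∈ sphere (0 : ℂ) R, ζ - y ≠ 0 := by
      intro ζ hζ h0
      have hζ' : ‖ζ‖ = R := by simpa using hζ
      rw [sub_eq_zero] at h0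
      rw [h0] at hζ'
      linarith
    have hcauchy : (∮ ζ in C(0, R), (ζ - y)⁻¹ • G ![x, ζ]) =
        (2 * Real.pi * Complex.I : ℂ) • G ![x, y] :=
      DifferentiableOn.circleIntegral_sub_inv_smul hGz.differentiableOn (by simpa using hy)
    have i1 : CircleIntegrable (fun ζ => (ζ - y)⁻¹ • G ![x, ζ]) 0 R := by
      refine ContinuousOn.circleIntegrable hR0.le ?_
      exact (ContinuousOn.inv₀ (by fun_prop) hyne).smul hGz.continuous.continuousOn
    have i2 : CircleIntegrable (fun ζ => eval ![x, y] Q * hh Q G ![x, y] ζ) 0 R := by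
      refine ContinuousOn.circleIntegrable hR0.le (continuousOn_const.mul ?_)
      refine ContinuousOn.div hGz.continuous.continuousOn ?_ ?_
      · exact hQz.continuous.continuousOn.mul (by fun_prop)
      · intro ζ hζ
        exact mul_ne_zero (hQne ζ hζ) (hyne ζ hζ)
    have hDc : ∀ i, Continuous (fun ζ : ℂ => DD Q i x ζ) := fun i =>
      ((DD_cont Q i).comp (f := fun ζ : ℂ => ((x, ζ) : ℂ × ℂ)) (by fun_prop)).continuous
    have i3 : ∀ i ∈ Finset.range Q.totalDegree,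
        CircleIntegrable (fun ζ => h1 Q G i (fun _ => x) ζ * y ^ i) 0 R := by
      intro i _
      refine ContinuousOn.circleIntegrable hR0.le (ContinuousOn.mul ?_ continuousOn_const)
      refine ContinuousOn.mul ?_ (hDc i).continuousOn
      exact ContinuousOn.div hGz.continuous.continuousOn hQz.continuous.continuousOn hQne
    have key : (∮ ζ in C(0, R), ((ζ - y)⁻¹ • G ![x, ζ] - eval ![x, y] Q * hh Q G ![x, y] ζ)) =
        ∮ ζ in C(0, R), ∑ i ∈ Finset.range Q.totalDegree, h1 Q G i (fun _ => x) ζ * y ^ i := by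
      refine circleIntegral.integral_congr hR0.le fun ζ hζ => ?_
      have e1 := hQne ζ hζ
      have e2 := hyne ζ hζ
      have e3 := dd_eq Q x y ζ
      have e4 : ∑ i ∈ Finset.range Q.totalDegree, h1 Q G i (fun _ => x) ζ * y ^ i =
          G ![x, ζ] / eval ![x, ζ] Q * ∑ i ∈ Finset.range Q.totalDegree, DD Q i x ζ * y ^ i := by
        rw [Finset.mul_sum]
        refine Finset.sum_congr rfl fun i _ => ?_
        unfold h1
        ring
      change (ζ - y)⁻¹ • G ![x, ζ] - eval ![x, y] Q * (G ![x, ζ] / (eval ![x, ζ] Q * (ζ - y))) =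
        ∑ i ∈ Finset.range Q.totalDegree, h1 Q G i (fun _ => x) ζ * y ^ i
      rw [e4, smul_eq_mul]
      have e5 : ∑ i ∈ Finset.range Q.totalDegree, DD Q i x ζ * y ^ i =
          (eval ![x, ζ] Q - eval ![x, y] Q) / (ζ - y) := by
        rw [eq_div_iff e2, ← e3]
        ring
      rw [e5]
      field_simp
    rw [circleIntegral.integral_sub i1 i2, hcauchy, circleIntegral.integral_fun_sum i3] at key
    have e6 : (∮ ζ in C(0, R), eval ![x, y] Q * hh Q G ![x, y] ζ) =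
        eval ![x, y] Q * ∮ ζ in C(0, R), hh Q G ![x, y] ζ :=
      circleIntegral.integral_const_mul _ _ _ _
    have e7 : ∀ i, (∮ ζ in C(0, R), h1 Q G i (fun _ => x) ζ * y ^ i) =
        (∮ ζ in C(0, R), h1 Q G i (fun _ => x) ζ) * y ^ i := by
      intro i
      have := circleIntegral.integral_const_mul (y ^ i) (fun ζ => h1 Q G i (fun _ => x) ζ) 0 R
      rw [mul_comm, ← this]
      refine circleIntegral.integral_congr hR0.le fun ζ _ => ?_
      exact mul_comm _ _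
    rw [e6, Finset.sum_congr rfl fun i _ => e7 i] at key
    have e8 : ∑ i ∈ Finset.range Q.totalDegree, ((2 * Real.pi * Complex.I)⁻¹ *
        ∮ ζ in C(0, r1 C0 (fun _ => x) + 1), h1 Q G i (fun _ => x) ζ) * y ^ i =
        (2 * Real.pi * Complex.I)⁻¹ * ∑ i ∈ Finset.range Q.totalDegree,
          (∮ ζ in C(0, R), h1 Q G i (fun _ => x) ζ) * y ^ i := by
      rw [Finset.mul_sum]
      refine Finset.sum_congr rfl fun i _ => ?_
      rw [hc1 i]
      ring
    change G ![x, y] = eval ![x, y] Q * ((2 * Real.pi * Complex.I)⁻¹ *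
      ∮ ζ in C(0, rr C0 ![x, y] + 1), hh Q G ![x, y] ζ) +
      ∑ i ∈ Finset.range Q.totalDegree, ((2 * Real.pi * Complex.I)⁻¹ *
        ∮ ζ in C(0, r1 C0 (fun _ => x) + 1), h1 Q G i (fun _ => x) ζ) * y ^ i
    rw [e8, ← key, smul_eq_mul, ← hR]
    field_simp
    ring
  · rintro ⟨_, C, B, hCB⟩
    have hC : 0 ≤ C := by
      have := hCB 0
      rw [norm_zero, mul_zero, Real.exp_zero, mul_one] at this
      exact le_trans (norm_nonneg _) this
    refine ⟨g2.const_mul _, (C / κ) * Real.exp ((|B| + 1) * (C0 + 1)), (|B| + 1) * C0, fun v => ?_⟩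
    set R : ℝ := rr C0 v + 1 with hR
    have hy : ‖v 1‖ + 1 ≤ R := by
      have : ‖v 1‖ ≤ rr C0 v := le_max_left _ _
      linarith
    have hx : C0 * (1 + ‖v 0‖) ≤ R := by
      have : C0 * (1 + ‖v 0‖) ≤ rr C0 v := le_max_right _ _
      linarith
    have hv0 := norm_nonneg (v 0)
    have hv1 := norm_nonneg (v 1)
    have hR0 : 0 < R := by linarith
    have hRv : ‖v 0‖ ≤ R := by nlinarith
    have hRb : R ≤ C0 * ‖v‖ + (C0 + 1) := by
      have a0 := norm_le_pi_norm v 0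
      have a1 := norm_le_pi_norm v 1
      have a2 := norm_nonneg v
      have : rr C0 v ≤ C0 * (1 + ‖v‖) := by
        refine max_le ?_ ?_
        · nlinarith
        · nlinarith
      linarith
    have hbound : ∀ ζ ∈ sphere (0 : ℂ) R, ‖hh Q G v ζ‖ ≤ C * Real.exp (|B| * R) / κ := by
      intro ζ hζ
      have hζ' : ‖ζ‖ = R := by simpa using hζ
      unfold hh
      rw [norm_div, norm_mul]
      have b1 : κ ≤ ‖eval ![v 0, ζ] Q‖ := hlow _ _ (by rw [hζ']; exact hx)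
      have b2 : 1 ≤ ‖ζ - v 1‖ := by
        have := norm_sub_norm_le ζ (v 1)
        rw [hζ'] at this
        linarith
      have b3 : ‖G ![v 0, ζ]‖ ≤ C * Real.exp (|B| * R) := by
        refine le_trans (hCB _) (mul_le_mul_of_nonneg_left (Real.exp_le_exp.2 ?_) hC)
        have b4 : ‖(![v 0, ζ] : Fin 2 → ℂ)‖ ≤ R := by
          rw [pi_norm_le_iff_of_nonneg hR0.le]
          intro i
          fin_cases i
          · exact hRv
          · exact hζ'.le
        calc B * ‖(![v 0, ζ] : Fin 2 → ℂ)‖ ≤ |B| * ‖(![v 0, ζ] : Fin 2 → ℂ)‖ :=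
              mul_le_mul_of_nonneg_right (le_abs_self B) (norm_nonneg _)
          _ ≤ |B| * R := mul_le_mul_of_nonneg_left b4 (abs_nonneg B)
      have b5 : κ ≤ ‖eval ![v 0, ζ] Q‖ * ‖ζ - v 1‖ := by nlinarith [norm_nonneg (eval ![v 0, ζ] Q)]
      exact div_le_div₀ (by positivity) b3 hκ b5
    have hfin := circleIntegral.norm_two_pi_i_inv_smul_integral_le_of_norm_le_const hR0.le hbound
    rw [smul_eq_mul] at hfin
    change ‖(2 * Real.pi * Complex.I)⁻¹ * ∮ ζ in C(0, R), hh Q G v ζ‖ ≤ _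
    refine le_trans hfin ?_
    have b6 : R ≤ Real.exp R := by
      have := Real.add_one_le_exp R
      linarith
    calc R * (C * Real.exp (|B| * R) / κ) ≤ Real.exp R * (C * Real.exp (|B| * R) / κ) :=
          mul_le_mul_of_nonneg_right b6 (by positivity)
      _ = (C / κ) * Real.exp ((|B| + 1) * R) := by
          have : (|B| + 1) * R = |B| * R + R := by ring
          rw [this, Real.exp_add (|B| * R) R]
          ring
      _ ≤ (C / κ) * Real.exp ((|B| + 1) * (C0 + 1) + (|B| + 1) * C0 * ‖v‖) := by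
          refine mul_le_mul_of_nonneg_left (Real.exp_le_exp.2 ?_) (by positivity)
          have b7 := abs_nonneg B
          nlinarith
      _ = (C / κ) * Real.exp ((|B| + 1) * (C0 + 1)) * Real.exp ((|B| + 1) * C0 * ‖v‖) := by
          rw [Real.exp_add]
          ring

end main

end Pool.Agent.Helper19.FB.DIV

theorem Pool.Agent.Helper25.FB.div1_thm : Pool.Agent.Helper25.FB.S_DIV1 :=
  Pool.Agent.Helper19.FB.DIV.div1
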