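import Pool.Agent.Helper25.FB.Spec

/-!
# FB, part FRED: the Fredholm alternative in `ℓ¹`
-/

set_option autoImplicit false

namespace Pool.Agent.Helper19.FB

open Pool.Agent.Helper25.FB Module

theorem fred_abs {k X : Type*} [Field k] [AddCommGroup X] [Module k X]
    (T : X →ₗ[k] X) (W : Submodule k X) [FiniteDimensional k W]
    (hW : ∀ x, T x - x ∈ W) (n : ℕ) (hn : Module.finrank k (LinearMap.ker T) = n)
    (ψ : Fin n → Module.Dual k X) (hψ : LinearIndependent k ψ) (hk : ∀ i x, ψ i (T x) = 0)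
    (u : X) (hu : ∀ i, ψ i u = 0) : u ∈ LinearMap.range T := by
  have hTW : ∀ w ∈ W, T w ∈ W := fun w hw => by
    have := W.add_mem (hW w) hw
    simpa using this
  have hkW : LinearMap.ker T ≤ W := by
    intro x hx
    have h1 := hW x
    rw [LinearMap.mem_ker.1 hx, zero_sub] at h1
    simpa using W.neg_mem h1
  let TW : W →ₗ[k] W := T.restrict hTW
  let q : W →ₗ[k] (X ⧸ LinearMap.range T) := (LinearMap.range T).mkQ ∘ₗ W.subtype
  have hq : Function.Surjective q := by
    intro y
    obtain ⟨x, rfl⟩ := (LinearMap.range T).mkQ_surjective y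
    refine ⟨-⟨T x - x, hW x⟩, ?_⟩
    change (LinearMap.range T).mkQ (-(T x - x)) = (LinearMap.range T).mkQ x
    rw [← sub_eq_zero, ← map_sub, Submodule.mkQ_apply, Submodule.Quotient.mk_eq_zero]
    refine ⟨-x, ?_⟩
    rw [map_neg]
    abel
  have hker : LinearMap.ker q = LinearMap.range TW := by
    ext w
    rw [LinearMap.mem_ker]
    change (LinearMap.range T).mkQ (w : X) = 0 ↔ _
    rw [Submodule.mkQ_apply, Submodule.Quotient.mk_eq_zero]
    constructor
    · rintro ⟨x, hx⟩
      have hxW : x ∈ W := by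
        have h1 := W.sub_mem w.2 (hW x)
        rw [← hx] at h1
        simpa using h1
      exact ⟨⟨x, hxW⟩, Subtype.ext hx⟩
    · rintro ⟨x, rfl⟩
      exact ⟨(x : X), rfl⟩
  have hfin : FiniteDimensional k (X ⧸ LinearMap.range T) := Module.Finite.of_surjective q hq
  have hrank : Module.finrank k (X ⧸ LinearMap.range T) = n := by
    have h1 := LinearMap.finrank_range_add_finrank_ker q
    have h2 := LinearMap.finrank_range_add_finrank_ker TW
    rw [LinearMap.range_eq_top.2 hq, finrank_top, hker] at h1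
    have h3 : Module.finrank k (LinearMap.ker TW) = Module.finrank k (LinearMap.ker T) := by
      have h4 : LinearMap.ker TW = (LinearMap.ker T).comap W.subtype := by
        ext w
        simp only [LinearMap.mem_ker, Submodule.mem_comap, Submodule.subtype_apply]
        constructor
        · intro h
          exact congrArg Subtype.val h
        · intro h
          exact Subtype.ext h
      rw [h4]
      exact (Submodule.comapSubtypeEquivOfLe hkW).finrank_eq
    omega
  have hle : ∀ i, LinearMap.range T ≤ LinearMap.ker (ψ i) := by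
    rintro i _ ⟨x, rfl⟩
    exact hk i x
  let ψb : Fin n → Module.Dual k (X ⧸ LinearMap.range T) :=
    fun i => (LinearMap.range T).liftQ (ψ i) (hle i)
  have hli : LinearIndependent k ψb := by
    refine LinearIndependent.of_comp ((LinearMap.range T).mkQ.dualMap) ?_
    have : ((LinearMap.range T).mkQ.dualMap ∘ ψb) = ψ := by
      funext i
      ext x
      rfl
    rw [this]
    exact hψ
  have hspan : Submodule.span k (Set.range ψb) = ⊤ :=
    hli.span_eq_top_of_card_eq_finrank' (by
      rw [Fintype.card_fin, Subspace.dual_finrank_eq, hrank])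
  have h0 : (LinearMap.range T).mkQ u = 0 := by
    rw [← Module.forall_dual_apply_eq_zero_iff k]
    intro f
    have hf : f ∈ Submodule.span k (Set.range ψb) := hspan ▸ Submodule.mem_top
    induction hf using Submodule.span_induction with
    | mem x hx =>
      obtain ⟨i, rfl⟩ := hx
      exact hu i
    | zero => simp
    | add x y _ _ hx hy => rw [LinearMap.add_apply, hx, hy, add_zero]
    | smul a x _ hx => rw [LinearMap.smul_apply, hx, smul_zero]
  exact (Submodule.Quotient.mk_eq_zero _).1 h0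

/-- the space `ℓ¹` -/
noncomputable abbrev L1 (I : Type) := lp (fun _ : I => ℂ) 1

variable {I : Type}

theorem mem1 {f : I → ℂ} (hf : Summable fun i => ‖f i‖) : Memℓp f 1 := by
  apply memℓp_gen
  simpa using hf

theorem norm1 (f : L1 I) : ‖f‖ = ∑' i, ‖f i‖ := by
  rw [lp.norm_eq_tsum_rpow (by simp)]
  simp

theorem sum1 (f : L1 I) : Summable fun i => ‖f i‖ := by
  have := (lp.memℓp f).summable (by simp)
  simpa using this

theorem col_sum (a : I → L1 I) (C : ℝ) (hC : ∀ i, ‖a i‖ ≤ C) (x : L1 I) :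
    Summable fun i => x i • a i := by
  refine Summable.of_norm_bounded (g := fun i => ‖x i‖ * C) ((sum1 x).mul_right C) fun i => ?_
  rw [norm_smul]
  exact mul_le_mul_of_nonneg_left (hC i) (norm_nonneg _)

theorem col_norm (a : I → L1 I) (C : ℝ) (hC : ∀ i, ‖a i‖ ≤ C) (x : L1 I) :
    ‖∑' i, x i • a i‖ ≤ C * ‖x‖ := by
  rw [norm1 x, ← tsum_mul_left]
  have h1 : Summable fun i => C * ‖x i‖ := (sum1 x).mul_left C
  refine tsum_of_norm_bounded h1.hasSum fun i => ?_
  rw [norm_smul, mul_comm]
  exact mul_le_mul_of_nonneg_right (hC i) (norm_nonneg _)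

/-- the operator with the given columns -/
noncomputable def op (a : I → L1 I) (C : ℝ) (hC : ∀ i, ‖a i‖ ≤ C) : L1 I →L[ℂ] L1 I :=
  LinearMap.mkContinuous
    { toFun := fun x => ∑' i, x i • a i
      map_add' := by
        intro x y
        rw [← (col_sum a C hC x).tsum_add (col_sum a C hC y)]
        refine tsum_congr fun i => ?_
        rw [lp.coeFn_add, Pi.add_apply, add_smul]
      map_smul' := by
        intro c x
        rw [RingHom.id_apply, ← tsum_const_smul'']
        refine tsum_congr fun i => ?_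
        rw [lp.coeFn_smul, Pi.smul_apply, smul_assoc] } C (col_norm a C hC)

theorem op_def (a : I → L1 I) (C : ℝ) (hC : ∀ i, ‖a i‖ ≤ C) (x : L1 I) :
    op a C hC x = ∑' i, x i • a i := rfl

theorem op_apply (a : I → L1 I) (C : ℝ) (hC : ∀ i, ‖a i‖ ≤ C) (x : L1 I) (k : I) :
    (op a C hC x) k = ∑' i, x i * a i k := by
  rw [op_def]
  have h1 := (lp.evalCLM ℂ (fun _ : I => ℂ) 1 k).map_tsum (col_sum a C hC x)
  exact h1

theorem fred : S_FRED := by
  intro I _ A d D w W J hA hd hw hJ z hz h1 h2
  have hd0 : ∀ i, d i ≠ 0 := fun i h => by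
    have := (hd i).1
    rw [h, norm_zero] at this
    linarith
  -- columns
  have hcs : ∀ i, Summable fun k => ‖A k i / d i‖ := fun i => by
    simp_rw [norm_div]
    exact (hA i).div_const _
  let c : I → L1 I := fun i => ⟨fun k => A k i / d i, mem1 (hcs i)⟩
  let e : I → L1 I := fun i => lp.single 1 i (1 : ℂ)
  let b : I → L1 I := fun i => if i ∈ J then e i else c i
  have hc_apply : ∀ i k, c i k = A k i / d i := fun i k => rfl
  have he_apply : ∀ i k, e i k = if k = i then 1 else 0 := fun i k => by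
    change (lp.single 1 i (1 : ℂ) : L1 I) k = _
    rw [lp.single_apply, Pi.single_apply]
  have hbe : ∀ i, ‖b i - e i‖ ≤ 1 / 2 := by
    intro i
    by_cases hi : i ∈ J
    · simp only [b, if_pos hi, sub_self, norm_zero]
      norm_num
    · simp only [b, if_neg hi]
      rw [norm1]
      have h3 : ∀ k, ‖(c i - e i) k‖ = ‖A k i - if k = i then d i else 0‖ / ‖d i‖ := by
        intro k
        rw [lp.coeFn_sub, Pi.sub_apply, hc_apply, he_apply, ← norm_div]
        congr 1
        split_ifs
        · rw [sub_div, div_self (hd0 i)]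
        · rw [sub_zero, sub_zero]
      simp_rw [h3]
      rw [tsum_div_const]
      refine le_trans (div_le_self (tsum_nonneg fun _ => norm_nonneg _) (hd i).1) (hJ i hi)
  have he1 : ∀ i, ‖e i‖ ≤ 1 := fun i => by
    change ‖(lp.single 1 i (1 : ℂ) : L1 I)‖ ≤ 1
    rw [lp.norm_single (by norm_num)]
    simp
  have hb2 : ∀ i, ‖b i‖ ≤ 2 := fun i => by
    have h3 : b i = (b i - e i) + e i := by abel
    rw [h3]
    refine le_trans (norm_add_le _ _) ?_
    have := hbe i
    have := he1 i
    linarith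
  obtain ⟨C, hC⟩ : ∃ C : ℝ, ∀ i, ‖c i‖ ≤ C := by
    refine ⟨2 + ∑ i ∈ J, ‖c i‖, fun i => ?_⟩
    by_cases hi : i ∈ J
    · have := Finset.single_le_sum (f := fun i => ‖c i‖) (fun i _ => norm_nonneg _) hi
      linarith
    · have h3 := hb2 i
      simp only [b, if_neg hi] at h3
      have : 0 ≤ ∑ i ∈ J, ‖c i‖ := Finset.sum_nonneg fun i _ => norm_nonneg _
      linarith
  set S : L1 I →L[ℂ] L1 I := op b 2 hb2 with hSdef
  set A' : L1 I →L[ℂ] L1 I := op c C hC with hA'def
  have hid : ∀ x : L1 I, x = ∑' i, x i • e i := by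
    intro x
    have h3 := (lp.hasSum_single (by norm_num) x).tsum_eq
    conv_lhs => rw [← h3]
    refine tsum_congr fun i => ?_
    change _ = x i • (lp.single 1 i (1 : ℂ) : L1 I)
    rw [← lp.single_smul]
    simp
  have hS1 : ‖(1 : L1 I →L[ℂ] L1 I) - S‖ ≤ 1 / 2 := by
    refine ContinuousLinearMap.opNorm_le_bound _ (by norm_num) fun x => ?_
    have h3 : ((1 : L1 I →L[ℂ] L1 I) - S) x = -∑' i, x i • (b i - e i) := by
      have h4 : ∑' i, x i • (b i - e i) = (∑' i, x i • b i) - ∑' i, x i • e i := by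
        rw [← (col_sum b 2 hb2 x).tsum_sub (col_sum e 1 he1 x)]
        refine tsum_congr fun i => ?_
        rw [smul_sub]
      rw [h4, ← hid x, sub_apply, one_apply_eq_self, hSdef, op_def]
      abel
    rw [h3, norm_neg]
    exact col_norm _ _ hbe x
  have hS1' : ‖(1 : L1 I →L[ℂ] L1 I) - S‖ < 1 := lt_of_le_of_lt hS1 (by norm_num)
  let U : (L1 I →L[ℂ] L1 I)ˣ := Units.oneSub (1 - S) hS1'
  have hU : (U : L1 I →L[ℂ] L1 I) = S := by
    change (1 : L1 I →L[ℂ] L1 I) - (1 - S) = S
    abel
  have hUi : ∀ x, S ((↑U⁻¹ : L1 I →L[ℂ] L1 I) x) = x := fun x => by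
    have h3 : (U : L1 I →L[ℂ] L1 I) * (↑U⁻¹ : L1 I →L[ℂ] L1 I) = 1 := U.mul_inv
    rw [hU] at h3
    exact DFunLike.congr_fun h3 x
  have hiU : ∀ x, (↑U⁻¹ : L1 I →L[ℂ] L1 I) (S x) = x := fun x => by
    have h3 : (↑U⁻¹ : L1 I →L[ℂ] L1 I) * (U : L1 I →L[ℂ] L1 I) = 1 := U.inv_mul
    rw [hU] at h3
    exact DFunLike.congr_fun h3 x
  let T : L1 I →ₗ[ℂ] L1 I := ((↑U⁻¹ : L1 I →L[ℂ] L1 I).comp A').toLinearMap
  have hST : ∀ x, S (T x) = A' x := fun x => hUi (A' x)
  let Wsp : Submodule ℂ (L1 I) :=
    Submodule.span ℂ ((fun i => (↑U⁻¹ : L1 I →L[ℂ] L1 I) (c i - b i)) '' (J : Set I))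
  have hWfin : FiniteDimensional ℂ Wsp :=
    FiniteDimensional.span_of_finite ℂ (J.finite_toSet.image _)
  have hTW : ∀ x, T x - x ∈ Wsp := by
    intro x
    have h3 : T x - x = (↑U⁻¹ : L1 I →L[ℂ] L1 I) (A' x - S x) := by
      rw [map_sub, hiU]
      rfl
    have h4 : A' x - S x = ∑ i ∈ J, x i • (c i - b i) := by
      have h5 : A' x - S x = ∑' i, x i • (c i - b i) := by
        rw [hA'def, hSdef, op_def, op_def, ← (col_sum c C hC x).tsum_sub (col_sum b 2 hb2 x)]
        refine tsum_congr fun i => ?_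
        rw [smul_sub]
      rw [h5]
      refine tsum_eq_sum fun i hi => ?_
      have h6 : c i - b i = 0 := by
        simp only [b, if_neg hi, sub_self]
      rw [h6, smul_zero]
    rw [h3, h4, map_sum]
    refine Submodule.sum_mem _ fun i hi => ?_
    rw [map_smul]
    exact Submodule.smul_mem _ _ (Submodule.subset_span ⟨i, hi, rfl⟩)
  have hkW : LinearMap.ker T ≤ Wsp := by
    intro x hx
    have h1 := hTW x
    rw [LinearMap.mem_ker.1 hx, zero_sub] at h1
    simpa using Wsp.neg_mem h1
  have hkfin : FiniteDimensional ℂ (LinearMap.ker T) := Submodule.finiteDimensional_of_le hkW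
  let B := Module.finBasis ℂ (LinearMap.ker T)
  -- elements divided by d
  have hdivs : ∀ x : L1 I, Summable fun i => ‖x i / d i‖ := fun x => by
    refine Summable.of_nonneg_of_le (fun _ => norm_nonneg _) (fun i => ?_) (sum1 x)
    rw [norm_div]
    exact div_le_self (norm_nonneg _) (hd i).1
  have hA'A : ∀ (x : L1 I) (k : I), (A' x) k = ∑' i, A k i * (x i / d i) := by
    intro x k
    rw [hA'def, op_apply]
    refine tsum_congr fun i => ?_
    rw [hc_apply]
    ring
  have hker : ∀ j, ∀ k, ∑' i, A k i * (((B j : LinearMap.ker T) : L1 I) i / d i) = 0 := by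
    intro j k
    rw [← hA'A, ← hST, LinearMap.mem_ker.1 (B j).2, map_zero]
    rfl
  have hsm : ∀ (y x : L1 I), Summable fun k => (starRingEnd ℂ) (y k / d k) * (w k * x k) := by
    intro y x
    refine Summable.of_norm_bounded (g := fun k => (‖y‖ * W) * ‖x k‖) ((sum1 x).mul_left _)
      fun k => ?_
    rw [norm_mul, norm_mul, RCLike.norm_conj, norm_div, ← mul_assoc]
    refine mul_le_mul_of_nonneg_right ?_ (norm_nonneg _)
    refine mul_le_mul ?_ ?_ (norm_nonneg _) (norm_nonneg _)
    · refine le_trans (div_le_self (norm_nonneg _) (hd k).1) ?_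
      exact lp.norm_apply_le_norm (by norm_num) y k
    · rw [Complex.norm_real, Real.norm_of_nonneg (hw k).1.le]
      exact (hw k).2
  let φ : L1 I → (L1 I →ₗ[ℂ] ℂ) := fun y =>
    { toFun := fun x => ∑' k, (starRingEnd ℂ) (y k / d k) * (w k * x k)
      map_add' := by
        intro x x'
        rw [← (hsm y x).tsum_add (hsm y x')]
        refine tsum_congr fun k => ?_
        rw [lp.coeFn_add, Pi.add_apply]
        ring
      map_smul' := by
        intro a x
        rw [RingHom.id_apply, smul_eq_mul, ← tsum_mul_left]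
        refine tsum_congr fun k => ?_
        rw [lp.coeFn_smul, Pi.smul_apply, smul_eq_mul]
        ring }
  have hφ : ∀ y x : L1 I, φ y x = ∑' k, (starRingEnd ℂ) (y k / d k) * (w k * x k) :=
    fun _ _ => rfl
  let ψ : Fin (Module.finrank ℂ (LinearMap.ker T)) → Module.Dual ℂ (L1 I) :=
    fun j => (φ (B j : L1 I)).comp S.toLinearMap
  have hψli : LinearIndependent ℂ ψ := by
    rw [Fintype.linearIndependent_iff]
    intro g hg
    have h3 : ∀ k, ∑ j, g j * (starRingEnd ℂ) ((B j : L1 I) k) = 0 := by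
      intro k
      have h4 := DFunLike.congr_fun hg ((↑U⁻¹ : L1 I →L[ℂ] L1 I) (e k))
      rw [LinearMap.sum_apply] at h4
      simp only [LinearMap.smul_apply, LinearMap.zero_apply, smul_eq_mul] at h4
      have h5 : ∀ j, ψ j ((↑U⁻¹ : L1 I →L[ℂ] L1 I) (e k)) =
          (starRingEnd ℂ) ((B j : L1 I) k / d k) * w k := by
        intro j
        change φ (B j : L1 I) (S ((↑U⁻¹ : L1 I →L[ℂ] L1 I) (e k))) = _
        rw [hUi, hφ, tsum_eq_single k]
        · rw [he_apply, if_pos rfl, mul_one]
        · intro k' hk'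
          rw [he_apply, if_neg hk', mul_zero, mul_zero]
      simp_rw [h5] at h4
      have h6 : ∑ j, g j * ((starRingEnd ℂ) ((B j : L1 I) k / d k) * w k) =
          (∑ j, g j * (starRingEnd ℂ) ((B j : L1 I) k)) * ((starRingEnd ℂ) (d k))⁻¹ * w k := by
        rw [Finset.sum_mul, Finset.sum_mul]
        refine Finset.sum_congr rfl fun j _ => ?_
        rw [map_div₀]
        ring
      rw [h6] at h4
      have hw0 : (w k : ℂ) ≠ 0 := by
        exact_mod_cast (hw k).1.ne'
      have hdc : ((starRingEnd ℂ) (d k))⁻¹ ≠ 0 := by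
        apply inv_ne_zero
        rw [Ne, map_eq_zero]
        exact hd0 k
      rcases mul_eq_zero.1 h4 with h7 | h7
      · rcases mul_eq_zero.1 h7 with h8 | h8
        · exact h8
        · exact absurd h8 hdc
      · exact absurd h7 hw0
    have h4 : ∑ j, (starRingEnd ℂ) (g j) • B j = 0 := by
      apply Subtype.ext
      rw [Submodule.coe_sum]
      apply lp.ext
      funext k
      have h5 := congrArg (starRingEnd ℂ) (h3 k)
      rw [map_sum, map_zero] at h5
      have h6 : (((∑ j, (((starRingEnd ℂ) (g j) • B j : LinearMap.ker T) : L1 I)) : L1 I) : I → ℂ) k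
          = ∑ j, (starRingEnd ℂ) (g j) * (B j : L1 I) k := by
        rw [lp.coeFn_sum, Finset.sum_apply]
        rfl
      rw [h6]
      refine Eq.trans ?_ h5
      refine Finset.sum_congr rfl fun j _ => ?_
      rw [map_mul, Complex.conj_conj]
    intro j
    have h5 := (Fintype.linearIndependent_iff.1 B.linearIndependent) _ h4 j
    exact (map_eq_zero _).1 h5
  have hψk : ∀ j x, ψ j (T x) = 0 := by
    intro j x
    change φ (B j : L1 I) (S (T x)) = 0
    rw [hST, hφ]
    have h3 := h2 (fun i => (B j : L1 I) i / d i) (fun i => x i / d i) (hdivs _) (hdivs _) (hker j)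
    refine Eq.trans ?_ h3
    refine tsum_congr fun k => ?_
    rw [hA'A]
  let zz : L1 I := ⟨z, mem1 hz⟩
  have hmem : (↑U⁻¹ : L1 I →L[ℂ] L1 I) zz ∈ LinearMap.range T := by
    refine fred_abs T Wsp hTW _ rfl ψ hψli hψk _ fun j => ?_
    change φ (B j : L1 I) (S ((↑U⁻¹ : L1 I →L[ℂ] L1 I) zz)) = 0
    rw [hUi, hφ]
    exact h1 (fun i => (B j : L1 I) i / d i) (hdivs _) (hker j)
  obtain ⟨x, hx⟩ := hmem
  refine ⟨fun i => x i / d i, hdivs x, fun k => ?_⟩
  rw [← hA'A, ← hST, hx, hUi]

end Pool.Agent.Helper19.FB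

theorem Pool.Agent.Helper25.FB.fred_thm : Pool.Agent.Helper25.FB.S_FRED :=
  Pool.Agent.Helper19.FB.fred
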