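import Pool.Agent.Helper21.FB.LAU

/-!
# FB, part FUN: the functional
-/

set_option autoImplicit false

namespace Pool.Agent.Helper19.FB.FUN

open Pool.Agent.Helper25.FB Pool.Agent.Helper25.FB.Inj Filter Topology Metric

theorem lc_congr {R : ℝ} (hR : 0 ≤ R) {φ ψ : ℂ → ℂ} (n : ℤ) (h : ∀ s, ‖s‖ = R → φ s = ψ s) :
    Lc R φ n = Lc R ψ n := by
  unfold Lc
  congr 1
  refine circleIntegral.integral_congr hR fun s hs => ?_
  have hs' : ‖s‖ = R := by simpa using hs
  simp only [h s hs']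

theorem lc_zero {R : ℝ} (hR : 0 ≤ R) {φ : ℂ → ℂ} (n : ℤ) (h : ∀ s, ‖s‖ = R → φ s = 0) :
    Lc R φ n = 0 := by
  rw [lc_congr hR n h]
  unfold Lc
  simp [circleIntegral]

theorem lc_smul (R : ℝ) (c : ℂ) (φ : ℂ → ℂ) (n : ℤ) :
    Lc R (fun s => c * φ s) n = c * Lc R φ n := by
  unfold Lc
  have h := circleIntegral.integral_smul c (fun s => φ s * s ^ (-n - 1)) 0 R
  simp only [smul_eq_mul] at h
  simp only [mul_assoc]
  rw [h]
  ring

theorem sph_ci {R : ℝ} (hR : 0 < R) {φ : ℂ → ℂ} (n : ℤ) (h : ContinuousOn φ (sphere 0 R)) :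
    CircleIntegrable (fun s => φ s * s ^ n) 0 R := by
  refine ContinuousOn.circleIntegrable hR.le (h.mul ?_)
  intro s hs
  have hs' : ‖s‖ = R := by simpa using hs
  have hne : s ≠ 0 := by
    intro h0
    rw [h0, norm_zero] at hs'
    linarith
  exact (differentiableAt_zpow.2 (Or.inl hne)).continuousAt.continuousWithinAt

theorem lc_add {R : ℝ} (hR : 0 < R) {φ ψ : ℂ → ℂ} (n : ℤ) (h : ContinuousOn φ (sphere 0 R))
    (h' : ContinuousOn ψ (sphere 0 R)) :
    Lc R (fun s => φ s + ψ s) n = Lc R φ n + Lc R ψ n := by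
  unfold Lc
  rw [← mul_add, ← circleIntegral.integral_add (sph_ci hR _ h) (sph_ci hR _ h')]
  congr 1
  refine circleIntegral.integral_congr hR.le fun s _ => ?_
  simp only [add_mul]

theorem bn_le {R M : ℝ} (hR : 0 < R) {φ : ℂ → ℂ} (n : ℕ) (h : ∀ s, ‖s‖ = R → ‖φ s‖ ≤ M) :
    ‖(R : ℂ) ^ n * Lc R φ n‖ ≤ M := by
  rw [norm_mul, norm_pow, Complex.norm_real, Real.norm_of_nonneg hR.le]
  have h1 := Pool.Agent.Helper21.FB.lc_le (φ := φ) (n : ℤ) hR h
  calc R ^ n * ‖Lc R φ n‖ ≤ R ^ n * (M * R ^ (-(n : ℤ))) :=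
        mul_le_mul_of_nonneg_left h1 (by positivity)
    _ = M := by
        rw [zpow_neg, zpow_natCast]
        field_simp

section ends

variable {P : Pol} {m : ℕ} (E : Ends P m)

theorem w_cont (j : Fin m) : ContinuousOn (E.w j) {s | E.r⁻¹ < ‖s‖} := by
  have hV : ContinuousOn (fun s : ℂ => E.V j s⁻¹) {s | E.r⁻¹ < ‖s‖} := by
    refine (E.hol j).continuousOn.comp ?_ ?_
    · intro s hs
      have hs' : E.r⁻¹ < ‖s‖ := hs
      have hne : s ≠ 0 := by
        intro h0
        rw [h0, norm_zero] at hs'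
        have := inv_pos.2 E.r0
        linarith
      exact (continuousAt_inv₀ hne).continuousWithinAt
    · intro s hs
      have hs' : E.r⁻¹ < ‖s‖ := hs
      rw [mem_ball, dist_zero_right, norm_inv]
      exact inv_lt_of_inv_lt₀ E.r0 hs'
  refine continuousOn_pi.2 fun i => ?_
  fin_cases i
  · change ContinuousOn (fun s : ℂ => E.p j * s - E.V j s⁻¹ * (starRingEnd ℂ) (E.q j)) _
    exact (continuousOn_const.mul continuousOn_id).sub (hV.mul continuousOn_const)
  · change ContinuousOn (fun s : ℂ => E.q j * s + E.V j s⁻¹ * (starRingEnd ℂ) (E.p j)) _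
    exact (continuousOn_const.mul continuousOn_id).add (hV.mul continuousOn_const)

theorem z_cont (j : Fin m) : ContinuousOn (E.z j) {s | E.r⁻¹ < ‖s‖} := by
  refine continuousOn_pi.2 fun i => ?_
  change ContinuousOn (fun t => (starRingEnd ℂ) (E.w j ((starRingEnd ℂ) t) i)) _
  refine Complex.continuous_conj.comp_continuousOn ?_
  have h1 := continuousOn_pi.1 (w_cont E j) i
  refine h1.comp Complex.continuous_conj.continuousOn ?_
  intro t ht
  have ht' : E.r⁻¹ < ‖t‖ := ht
  simpa using ht'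

set_option maxHeartbeats 4000000 in
theorem fun_thm (B : ℝ) (hB : E.r⁻¹ < B) (x : Fin m × ℕ → ℂ) (hx : Summable (fun i => ‖x i‖)) :
    InPerp P (Tx E B x) ∧ ∀ k, kn E B (FBorel (Tx E B x)) k = ∑' i, Am E B k i * x i := by
  have hr := inv_pos.2 E.r0
  have hB0 : 0 < B := lt_trans hr hB
  have hsub : sphere (0 : ℂ) B ⊆ {s | E.r⁻¹ < ‖s‖} := by
    intro s hs
    have hs' : ‖s‖ = B := by simpa using hs
    change E.r⁻¹ < ‖s‖
    rw [hs']
    exact hB
  have hwc : ∀ j, ContinuousOn (E.w j) (sphere 0 B) := fun j => (w_cont E j).mono hsub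
  have hzc : ∀ j, ContinuousOn (E.z j) (sphere 0 B) := fun j => (z_cont E j).mono hsub
  have hfc : ∀ (f : (Fin 2 → ℂ) → ℂ), Entire f → ∀ j,
      ContinuousOn (fun s => f (E.w j s)) (sphere 0 B) := fun f hf j =>
    (Differentiable.continuous hf).comp_continuousOn (hwc j)
  -- the compact set
  set K : Set (Fin 2 → ℂ) := ⋃ j : Fin m, E.w j '' sphere 0 B with hK
  have hKc : IsCompact K := isCompact_iUnion fun j => (isCompact_sphere 0 B).image_of_continuousOn
    (hwc j)
  have hbd : ∀ (f : (Fin 2 → ℂ) → ℂ) (M : ℝ), (∀ z ∈ K, ‖f z‖ ≤ M) → ∀ i : Fin m × ℕ,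
      ‖x i * ((B : ℂ) ^ i.2 * Lc B (fun s => f (E.w i.1 s)) i.2)‖ ≤ ‖x i‖ * M := by
    intro f M hM i
    rw [norm_mul]
    refine mul_le_mul_of_nonneg_left (bn_le hB0 _ fun s hs => ?_) (norm_nonneg _)
    exact hM _ (Set.mem_iUnion.2 ⟨i.1, s, by simpa using hs, rfl⟩)
  have hsum : ∀ (f : (Fin 2 → ℂ) → ℂ), Entire f → Summable fun i : Fin m × ℕ =>
      x i * ((B : ℂ) ^ i.2 * Lc B (fun s => f (E.w i.1 s)) i.2) := by
    intro f hf
    obtain ⟨M, hM⟩ := hKc.exists_bound_of_continuousOn (Differentiable.continuous hf).continuousOn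
    exact Summable.of_norm_bounded (hx.mul_right M) (hbd f M hM)
  refine ⟨⟨⟨?_, ?_, ?_⟩, ?_⟩, ?_⟩
  · intro f g hf hg
    unfold Tx
    rw [← (hsum f hf).tsum_add (hsum g hg)]
    refine tsum_congr fun i => ?_
    rw [lc_add hB0 _ (hfc f hf _) (hfc g hg _)]
    ring
  · intro c f hf
    unfold Tx
    rw [← tsum_mul_left]
    refine tsum_congr fun i => ?_
    rw [lc_smul]
    ring
  · refine ⟨K, ∑' i, ‖x i‖, hKc, fun f M hf hM hfM => ?_⟩
    unfold Tx
    rw [← tsum_mul_right]
    exact tsum_of_norm_bounded (hx.mul_right M).hasSum (hbd f M hfM)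
  · intro f hf
    unfold Tx
    have h0 : ∀ i : Fin m × ℕ, x i * ((B : ℂ) ^ i.2 *
        Lc B (fun s => MvPolynomial.eval (E.w i.1 s) P * f (E.w i.1 s)) i.2) = 0 := by
      intro i
      rw [lc_zero hB0.le, mul_zero, mul_zero]
      intro s hs
      have h1 := E.zero i.1 s (by rw [hs]; exact hB)
      have h2 : MvPolynomial.eval (E.w i.1 s) P = 0 := h1
      rw [h2, zero_mul]
    rw [tsum_congr h0, tsum_zero]
  · intro k
    -- the kernel
    let H : Fin m → ℂ → ℂ → ℂ := fun j t s => Complex.exp (∑ a, E.w j s a * E.z k.1 t a)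
    let F : Fin m × ℕ → ℂ → ℂ := fun i t => (B : ℂ) ^ i.2 * Lc B (fun s => H i.1 t s) i.2
    have hHc : ∀ j, ContinuousOn (fun p : ℂ × ℂ => H j p.1 p.2) (sphere 0 B ×ˢ sphere 0 B) := by
      intro j
      refine Complex.continuous_exp.comp_continuousOn ?_
      refine continuousOn_finsetSum _ fun a _ => ?_
      refine ContinuousOn.mul ?_ ?_
      · exact (continuousOn_pi.1 (hwc j) a).comp continuousOn_snd fun p hp => hp.2
      · exact (continuousOn_pi.1 (hzc k.1) a).comp continuousOn_fst fun p hp => hp.1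
    have hMj : ∀ j, ∃ M : ℝ, ∀ t s, ‖t‖ = B → ‖s‖ = B → ‖H j t s‖ ≤ M := by
      intro j
      obtain ⟨M, hM⟩ := ((isCompact_sphere (0 : ℂ) B).prod
        (isCompact_sphere (0 : ℂ) B)).exists_bound_of_continuousOn (hHc j)
      refine ⟨M, fun t s ht hs => hM (t, s) ⟨by simpa using ht, by simpa using hs⟩⟩
    choose Mj hMj using hMj
    set M : ℝ := ∑ j, |Mj j| with hMdef
    have hM : ∀ j t s, ‖t‖ = B → ‖s‖ = B → ‖H j t s‖ ≤ M := by
      intro j t s ht hs
      refine le_trans (hMj j t s ht hs) (le_trans (le_abs_self _) ?_)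
      exact Finset.single_le_sum (f := fun j => |Mj j|) (fun i _ => abs_nonneg _)
        (Finset.mem_univ j)
    have hF : ∀ i t, ‖t‖ = B → ‖F i t‖ ≤ M := fun i t ht => bn_le hB0 _ fun s hs => hM _ t s ht hs
    have hcm : ∀ θ : ℝ, ‖circleMap (0 : ℂ) B θ‖ = B := fun θ => by
      rw [norm_circleMap_zero, abs_of_pos hB0]
    have hcne : ∀ θ : ℝ, circleMap (0 : ℂ) B θ ≠ 0 := fun θ h => by
      have := hcm θ
      rw [h, norm_zero] at this
      linarith
    have hcs : ∀ θ : ℝ, circleMap (0 : ℂ) B θ ∈ sphere (0 : ℂ) B := fun θ => by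
      simpa using hcm θ
    have hzp : ∀ n : ℤ, Continuous fun θ : ℝ => circleMap (0 : ℂ) B θ ^ n := fun n =>
      (continuous_circleMap 0 B).zpow₀ n fun θ => Or.inl (hcne θ)
    have hdc : Continuous fun θ : ℝ => deriv (circleMap (0 : ℂ) B) θ := by
      have : (fun θ : ℝ => deriv (circleMap (0 : ℂ) B) θ) =
          fun θ => circleMap 0 B θ * Complex.I := by
        funext θ
        rw [deriv_circleMap]
      rw [this]
      exact (continuous_circleMap 0 B).mul continuous_const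
    -- continuity of `F` on the circle
    have hFc : ∀ i, Continuous fun θ : ℝ => F i (circleMap 0 B θ) := by
      intro i
      have h1 : (fun θ : ℝ => F i (circleMap 0 B θ)) = fun θ => (B : ℂ) ^ i.2 *
          ((2 * Real.pi * Complex.I)⁻¹ * ∫ η in (0 : ℝ)..2 * Real.pi,
            deriv (circleMap (0 : ℂ) B) η • (H i.1 (circleMap 0 B θ) (circleMap 0 B η) *
              circleMap 0 B η ^ (-(i.2 : ℤ) - 1))) := by
        funext θ
        rfl
      rw [h1]
      refine continuous_const.mul (continuous_const.mul ?_)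
      refine intervalIntegral.continuous_parametric_intervalIntegral_of_continuous' ?_ _ _
      change Continuous fun p : ℝ × ℝ => deriv (circleMap (0 : ℂ) B) p.2 •
        (H i.1 (circleMap 0 B p.1) (circleMap 0 B p.2) * circleMap 0 B p.2 ^ (-(i.2 : ℤ) - 1))
      refine Continuous.smul (hdc.comp continuous_snd) (Continuous.mul ?_
        ((hzp _).comp continuous_snd))
      have h2 : Continuous fun p : ℝ × ℝ =>
          ((circleMap (0 : ℂ) B p.1, circleMap (0 : ℂ) B p.2) : ℂ × ℂ) :=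
        ((continuous_circleMap 0 B).comp continuous_fst).prodMk
          ((continuous_circleMap 0 B).comp continuous_snd)
      have h3 : Continuous ((fun p : ℂ × ℂ => H i.1 p.1 p.2) ∘ fun p : ℝ × ℝ =>
          ((circleMap (0 : ℂ) B p.1, circleMap (0 : ℂ) B p.2) : ℂ × ℂ)) :=
        ContinuousOn.comp_continuous (hHc i.1) h2 fun p =>
          Set.mk_mem_prod (hcs p.1) (hcs p.2)
      exact h3
    have hFB : ∀ t, FBorel (Tx E B x) (E.z k.1 t) = ∑' i, x i * F i t := fun t => rfl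
    have hFsum : ∀ t, ‖t‖ = B → Summable fun i => x i * F i t := by
      intro t ht
      refine Summable.of_norm_bounded (hx.mul_right M) fun i => ?_
      rw [norm_mul]
      exact mul_le_mul_of_nonneg_left (hF i t ht) (norm_nonneg _)
    -- interchange
    have hint : HasSum (fun i => ∫ θ in (0 : ℝ)..2 * Real.pi, deriv (circleMap (0 : ℂ) B) θ •
          ((x i * F i (circleMap 0 B θ)) * circleMap 0 B θ ^ (-(k.2 : ℤ) - 1)))
        (∫ θ in (0 : ℝ)..2 * Real.pi, deriv (circleMap (0 : ℂ) B) θ •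
          ((∑' i, x i * F i (circleMap 0 B θ)) * circleMap 0 B θ ^ (-(k.2 : ℤ) - 1))) := by
      refine intervalIntegral.hasSum_integral_of_dominated_convergence
        (fun i _ => ‖x i‖ * (B * (M * B ^ (-(k.2 : ℤ) - 1)))) ?_ ?_ ?_ ?_ ?_
      · intro i
        refine Continuous.aestronglyMeasurable ?_
        exact hdc.smul ((continuous_const.mul (hFc i)).mul (hzp _))
      · intro i
        refine Eventually.of_forall fun θ _ => ?_
        rw [norm_smul, norm_mul, norm_mul, norm_zpow, hcm, deriv_circleMap, norm_mul, hcm,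
          Complex.norm_I, mul_one]
        have h3 := hF i _ (hcm θ)
        have h4 : 0 ≤ B ^ (-(k.2 : ℤ) - 1) := zpow_nonneg hB0.le _
        calc B * (‖x i‖ * ‖F i (circleMap 0 B θ)‖ * B ^ (-(k.2 : ℤ) - 1))
            = ‖x i‖ * (B * (‖F i (circleMap 0 B θ)‖ * B ^ (-(k.2 : ℤ) - 1))) := by ring
          _ ≤ ‖x i‖ * (B * (M * B ^ (-(k.2 : ℤ) - 1))) := by gcongr
      · exact Eventually.of_forall fun θ _ => hx.mul_right _
      · exact intervalIntegrable_const
      · refine Eventually.of_forall fun θ _ => ?_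
        have h3 := (hFsum _ (hcm θ)).hasSum
        exact (h3.mul_right _).const_smul _
    have hLc : Lc B (fun t => ∑' i, x i * F i t) k.2 = ∑' i, x i * Lc B (F i) k.2 := by
      have h5 : ∀ i, x i * Lc B (F i) k.2 = (2 * Real.pi * Complex.I)⁻¹ *
          ∫ θ in (0 : ℝ)..2 * Real.pi, deriv (circleMap (0 : ℂ) B) θ •
          ((x i * F i (circleMap 0 B θ)) * circleMap 0 B θ ^ (-(k.2 : ℤ) - 1)) := by
        intro i
        rw [← lc_smul]
        rfl
      rw [tsum_congr h5, tsum_mul_left, hint.tsum_eq]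
      rfl
    unfold kn
    have h6 : Lc B (fun t => FBorel (Tx E B x) (E.z k.1 t)) k.2 = ∑' i, x i * Lc B (F i) k.2 := by
      rw [← hLc]
      rfl
    rw [h6, ← tsum_mul_left]
    refine tsum_congr fun i => ?_
    have h7 : Am E B k i = ((k.2).factorial : ℂ) / (B : ℂ) ^ k.2 * Lc B (F i) k.2 := rfl
    rw [h7]
    ring

end ends

end Pool.Agent.Helper19.FB.FUN

theorem Pool.Agent.Helper25.FB.fun_thm : Pool.Agent.Helper25.FB.S_FUN :=
  fun _ _ E B hB x hx => Pool.Agent.Helper19.FB.FUN.fun_thm E B hB x hx
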