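import Mathlib

/-!
# Integrals depending holomorphically on a parameter in a finite product
-/

set_option autoImplicit false

namespace Pool.Agent.Helper19.FB

open Filter Topology Set

/-- Cauchy estimate for the Frechet derivative on a ball -/
theorem fd_bound {V : Type*} [NormedAddCommGroup V] [NormedSpace ℂ V] (f : V → ℂ) (w : V)
    (r M : ℝ) (hr : 0 < r) (hf : ∀ y ∈ Metric.closedBall w r, DifferentiableAt ℂ f y)
    (hM : ∀ y ∈ Metric.closedBall w r, ‖f y‖ ≤ M) : ‖fderiv ℂ f w‖ ≤ M / r := by
  have hM0 : 0 ≤ M := (norm_nonneg _).trans (hM w (Metric.mem_closedBall_self hr.le))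
  refine ContinuousLinearMap.opNorm_le_bound _ (by positivity) fun v => ?_
  by_cases hv : v = 0
  · rw [hv, map_zero, norm_zero, norm_zero, mul_zero]
  have hv' : 0 < ‖v‖ := norm_pos_iff.mpr hv
  have hin : ∀ t : ℂ, ‖t‖ ≤ r * ‖v‖⁻¹ → w + t • v ∈ Metric.closedBall w r := by
    intro t ht
    rw [Metric.mem_closedBall, dist_eq_norm, add_sub_cancel_left, norm_smul]
    calc ‖t‖ * ‖v‖ ≤ r * ‖v‖⁻¹ * ‖v‖ := by gcongr
      _ = r := by field_simp
  have h3 : ∀ t : ℂ, HasDerivAt (fun t : ℂ => w + t • v) v t := by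
    intro t
    have := ((hasDerivAt_id t).smul_const v).const_add w
    simpa using this
  have h1 : HasDerivAt (fun t : ℂ => f (w + t • v)) (fderiv ℂ f w v) 0 := by
    have h2 : HasFDerivAt f (fderiv ℂ f w) (w + (0 : ℂ) • v) := by
      rw [zero_smul, add_zero]
      exact (hf w (Metric.mem_closedBall_self hr.le)).hasFDerivAt
    exact h2.comp_hasDerivAt 0 (h3 0)
  have hR : 0 < r * ‖v‖⁻¹ := mul_pos hr (inv_pos.mpr hv')
  have h4 : DiffContOnCl ℂ (fun t : ℂ => f (w + t • v)) (Metric.ball 0 (r * ‖v‖⁻¹)) := by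
    apply DifferentiableOn.diffContOnCl
    rw [closure_ball _ hR.ne']
    intro t ht
    have ht' : ‖t‖ ≤ r * ‖v‖⁻¹ := by simpa using ht
    exact ((hf _ (hin t ht')).comp t (h3 t).differentiableAt).differentiableWithinAt
  have h5 := Complex.norm_deriv_le_of_forall_mem_sphere_norm_le (c := 0) (R := r * ‖v‖⁻¹) (C := M)
    hR h4 (by
      intro t ht
      apply hM
      apply hin
      rw [mem_sphere_zero_iff_norm] at ht
      rw [ht])
  rw [h1.deriv] at h5
  refine h5.trans (le_of_eq ?_)
  field_simp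

/-- An integral over a compact interval which depends holomorphically on a parameter. -/
theorem diff_param2 {n : ℕ} (U : Set (Fin n → ℂ)) (hU : IsOpen U) (a b : ℝ)
    (K : (Fin n → ℂ) → ℝ → ℂ)
    (hK : ContinuousOn (fun u : (Fin n → ℂ) × ℝ => K u.1 u.2) (U ×ˢ Set.univ))
    (hd : ∀ θ, DifferentiableOn ℂ (fun t => K t θ) U) :
    DifferentiableOn ℂ (fun t => ∫ θ in a..b, K t θ) U := by
  intro t0 ht0
  obtain ⟨ε, hε, hball⟩ := Metric.isOpen_iff.1 hU t0 ht0
  set r : ℝ := ε / 4 with hr
  have hr0 : 0 < r := by positivity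
  have hsub : Metric.closedBall t0 (2 * r) ⊆ U := by
    intro z hz
    apply hball
    rw [Metric.mem_closedBall] at hz
    rw [Metric.mem_ball]
    linarith
  have hcs : ∀ t ∈ U, Continuous (fun θ => K t θ) := by
    intro t ht
    have h1 : ContinuousOn (fun θ : ℝ => (t, θ)) Set.univ := by fun_prop
    have h2 := hK.comp h1 (fun θ _ => ⟨ht, Set.mem_univ _⟩)
    exact continuousOn_univ.1 h2
  obtain ⟨M, hM⟩ := ((isCompact_closedBall t0 (2 * r)).prod
    (isCompact_uIcc (a := a) (b := b))).exists_bound_of_continuousOn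
      (hK.mono (Set.prod_mono hsub (Set.subset_univ _)))
  have hin : ∀ t ∈ Metric.ball t0 r, Metric.closedBall t r ⊆ Metric.closedBall t0 (2 * r) := by
    intro t ht z hz
    rw [Metric.mem_ball] at ht
    rw [Metric.mem_closedBall] at hz ⊢
    have := dist_triangle z t t0
    linarith
  have hdat : ∀ θ, ∀ t ∈ U, DifferentiableAt ℂ (fun t => K t θ) t := fun θ t ht =>
    (hd θ t ht).differentiableAt (hU.mem_nhds ht)
  have hder : ∀ θ, ∀ t ∈ Metric.ball t0 r,
      HasFDerivAt (fun t => K t θ) (fderiv ℂ (fun t => K t θ) t) t := by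
    intro θ t ht
    exact (hdat θ t (hsub (hin t ht (Metric.mem_closedBall_self hr0.le)))).hasFDerivAt
  have key := intervalIntegral.hasFDerivAt_integral_of_dominated_of_fderiv_le
    (μ := MeasureTheory.volume) (a := a) (b := b) (F := K) (𝕜 := ℂ)
    (F' := fun t θ => fderiv ℂ (fun t => K t θ) t) (x₀ := t0) (s := Metric.ball t0 r)
    (bound := fun _ => M / r) (Metric.ball_mem_nhds t0 hr0) ?_ ?_ ?_ ?_ ?_ ?_
  · exact key.differentiableAt.differentiableWithinAt
  · filter_upwards [hU.mem_nhds ht0] with t ht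
    exact (hcs t ht).aestronglyMeasurable
  · exact (hcs t0 ht0).intervalIntegrable _ _
  · -- measurability of the derivative
    obtain ⟨N0, hN0⟩ := exists_nat_gt (1 / r)
    have hN0' : 0 < (N0 : ℝ) := lt_trans (by positivity) hN0
    have hcoord : ∀ i : Fin n, MeasureTheory.AEStronglyMeasurable
        (fun θ => fderiv ℂ (fun t => K t θ) t0 (Pi.single i 1))
        (MeasureTheory.volume.restrict (Set.uIoc a b)) := by
      intro i
      refine aestronglyMeasurable_of_tendsto_ae (atTop : Filter ℕ)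
        (f := fun (n : ℕ) (θ : ℝ) => ((n + N0 : ℕ) : ℂ) •
          (K (t0 + (((n + N0 : ℕ) : ℂ))⁻¹ • Pi.single i 1) θ - K t0 θ)) ?_ ?_
      · intro k
        have hmem : t0 + (((k + N0 : ℕ) : ℂ))⁻¹ • Pi.single i (1 : ℂ) ∈ U := by
          apply hsub
          rw [Metric.mem_closedBall, dist_eq_norm, add_sub_cancel_left, norm_smul, norm_inv]
          have h1 : ‖(Pi.single i (1 : ℂ) : Fin n → ℂ)‖ ≤ 1 := by
            rw [pi_norm_le_iff_of_nonneg zero_le_one]
            intro j
            rw [Pi.single_apply]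
            split_ifs <;> simp
          have h2 : ‖(((k + N0 : ℕ) : ℂ))‖ = (k : ℝ) + N0 := by
            rw [Complex.norm_natCast]
            push_cast
            ring
          rw [h2]
          have h3 : ((k : ℝ) + N0)⁻¹ ≤ r := by
            rw [inv_le_comm₀ (by positivity) hr0]
            rw [one_div] at hN0
            have : (0 : ℝ) ≤ k := k.cast_nonneg
            linarith
          have h4 : (0 : ℝ) ≤ ((k : ℝ) + N0)⁻¹ := by positivity
          calc ((k : ℝ) + N0)⁻¹ * ‖(Pi.single i (1 : ℂ) : Fin n → ℂ)‖ ≤ r * 1 :=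
                mul_le_mul h3 h1 (norm_nonneg _) hr0.le
            _ ≤ 2 * r := by linarith
        have h1 := hcs _ hmem
        have h2 := hcs t0 ht0
        have h7 : Continuous fun θ : ℝ => ((k + N0 : ℕ) : ℂ) •
            (K (t0 + (((k + N0 : ℕ) : ℂ))⁻¹ • Pi.single i 1) θ - K t0 θ) :=
          continuous_const.mul (h1.sub h2)
        exact h7.aestronglyMeasurable
      · refine Filter.Eventually.of_forall fun θ => ?_
        refine (hder θ t0 (Metric.mem_ball_self hr0)).lim (Pi.single i 1) ?_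
        have h5 : (fun n : ℕ => ‖((n + N0 : ℕ) : ℂ)‖) = fun n : ℕ => ((n + N0 : ℕ) : ℝ) := by
          funext k
          rw [Complex.norm_natCast]
        rw [h5]
        exact tendsto_natCast_atTop_atTop.comp (tendsto_add_atTop_nat N0)
    have hL : (fun θ => fderiv ℂ (fun t => K t θ) t0) = fun θ => ∑ i : Fin n,
        (fderiv ℂ (fun t => K t θ) t0 (Pi.single i 1)) •
          (ContinuousLinearMap.proj (R := ℂ) (φ := fun _ : Fin n => ℂ) i) := by
      funext θ
      ext v
      have hv : v = ∑ i, v i • (Pi.single i (1 : ℂ) : Fin n → ℂ) := by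
        funext j
        simp [Finset.sum_apply, Pi.single_apply]
      conv_lhs => rw [hv, map_sum]
      rw [sum_apply]
      refine Finset.sum_congr rfl fun i _ => ?_
      rw [map_smul, smul_apply, ContinuousLinearMap.proj_apply, smul_eq_mul,
        smul_eq_mul, mul_comm]
    change MeasureTheory.AEStronglyMeasurable (fun θ => fderiv ℂ (fun t => K t θ) t0) _
    rw [hL]
    exact Finset.aestronglyMeasurable_fun_sum Finset.univ fun i _ => (hcoord i).smul_const _
  · refine Filter.Eventually.of_forall fun θ hθ t ht => ?_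
    have hθ' : θ ∈ Set.uIcc a b := Set.uIoc_subset_uIcc hθ
    refine fd_bound _ t r M hr0 (fun y hy => hdat θ y (hsub (hin t ht hy))) fun y hy => ?_
    exact hM (y, θ) ⟨hin t ht hy, hθ'⟩
  · exact intervalIntegrable_const
  · exact Filter.Eventually.of_forall fun θ _ t ht => hder θ t ht

end Pool.Agent.Helper19.FB
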